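import Pool.Agent.V60.FSP

/-! Prediction of the digits of several real numbers by finite-state machines, each number in its own
base, from a joint measure of approximation. -/

set_option autoImplicit false

namespace Pool.Agent.V11015.FS

open Finset Pool.Agent.V60.FSP

/-- the number of the digits up to the scale `g` -/
noncomputable def nd (b : ℕ) (g : ℝ) : ℕ := ⌊g / Real.log b⌋₊

theorem log_base_pos {b : ℕ} (hb : 2 ≤ b) : 0 < Real.log (b : ℝ) :=
  Real.log_pos (by exact_mod_cast (show 1 < b by omega))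

theorem nd_mul_le {b : ℕ} (hb : 2 ≤ b) {g : ℝ} (hg : 0 ≤ g) : (nd b g : ℝ) * Real.log b ≤ g := by
  have h := log_base_pos hb
  have h1 : (nd b g : ℝ) ≤ g / Real.log b := Nat.floor_le (by positivity)
  rwa [le_div_iff₀ h] at h1

theorem lt_nd_mul {b : ℕ} (hb : 2 ≤ b) (g : ℝ) : g < ((nd b g : ℝ) + 1) * Real.log b := by
  have h := log_base_pos hb
  have h1 : g / Real.log b < (nd b g : ℝ) + 1 := Nat.lt_floor_add_one _
  rwa [div_lt_iff₀ h] at h1

theorem le_nd {b : ℕ} (hb : 2 ≤ b) {g : ℝ} {k : ℕ} (h : (k : ℝ) * Real.log b ≤ g) : k ≤ nd b g := by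
  have h0 := log_base_pos hb
  exact Nat.le_floor (by rwa [le_div_iff₀ h0])

theorem nd_le {b : ℕ} (hb : 2 ≤ b) {g : ℝ} {k : ℕ} (hg : 0 ≤ g) (h : g ≤ (k : ℝ) * Real.log b) :
    nd b g ≤ k := by
  have h0 := log_base_pos hb
  have h1 := (nd_mul_le hb hg).trans h
  exact_mod_cast le_of_mul_le_mul_right h1 h0

theorem nd_lt {b : ℕ} (hb : 2 ≤ b) {g : ℝ} {k : ℕ} (hg : 0 ≤ g) (h : g < ((k : ℝ) + 1) * Real.log b) :
    nd b g ≤ k := by
  have h0 := log_base_pos hb
  have h1 := (nd_mul_le hb hg).trans_lt h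
  have h2 : (nd b g : ℝ) < (k : ℝ) + 1 := lt_of_mul_lt_mul_right h1 h0.le
  have h3 : nd b g < k + 1 := by exact_mod_cast h2
  omega

/-- a repetition gives a good rational approximation -/
theorem rat_rep {b : ℕ} (hb : 2 ≤ b) (x : ℝ) {i j v : ℕ} (hij : i < j) (hjv : j ≤ v)
    (hrep : ∀ t < v - j, dg b x (i + t + 1) = dg b x (j + t + 1)) :
    |x - ((⌊x * (b : ℝ) ^ j⌋ - ⌊x * (b : ℝ) ^ i⌋ : ℤ) : ℝ) / ((b ^ j - b ^ i : ℕ) : ℝ)| ≤
      2 * ((b : ℝ) ^ v)⁻¹ := by
  have h1 := approx b hb x i j (v - j) hrep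
  have hb1 : (1 : ℝ) < b := by exact_mod_cast (show 1 < b by omega)
  have hb0 : (0 : ℝ) < b := by linarith
  have hb2 : (2 : ℝ) ≤ b := by exact_mod_cast hb
  have hpow : b ^ i < b ^ j := Nat.pow_lt_pow_right (by omega) hij
  have hqr : ((b ^ j - b ^ i : ℕ) : ℝ) = (b : ℝ) ^ j - (b : ℝ) ^ i := by
    rw [Nat.cast_sub hpow.le]
    push_cast
    rfl
  have hbj : (0 : ℝ) < (b : ℝ) ^ j := by positivity
  have hhalf : (b : ℝ) ^ j ≤ 2 * ((b : ℝ) ^ j - (b : ℝ) ^ i) := by
    have h3 : (b : ℝ) ^ (i + 1) ≤ (b : ℝ) ^ j := pow_le_pow_right₀ hb1.le (by omega)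
    rw [pow_succ] at h3
    have h4 : (0 : ℝ) < (b : ℝ) ^ i := by positivity
    nlinarith
  have hq0 : (0 : ℝ) < (b : ℝ) ^ j - (b : ℝ) ^ i := by linarith
  rw [hqr]
  set P : ℝ := ((⌊x * (b : ℝ) ^ j⌋ - ⌊x * (b : ℝ) ^ i⌋ : ℤ) : ℝ) with hP
  have e1 : x - P / ((b : ℝ) ^ j - (b : ℝ) ^ i) =
      (((b : ℝ) ^ j - (b : ℝ) ^ i) * x - P) / ((b : ℝ) ^ j - (b : ℝ) ^ i) := by
    field_simp
  rw [e1, abs_div, abs_of_pos hq0, div_le_iff₀ hq0]
  have hbv : (0 : ℝ) < (b : ℝ) ^ v := by positivity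
  have hn : (0 : ℝ) < (b : ℝ) ^ (v - j) := by positivity
  have e2 : (b : ℝ) ^ v = (b : ℝ) ^ (v - j) * (b : ℝ) ^ j := by
    rw [← pow_add]
    congr 1
    omega
  have h5 : |((b : ℝ) ^ j - (b : ℝ) ^ i) * x - P| ≤ ((b : ℝ) ^ (v - j))⁻¹ := by
    rw [← one_div, le_div_iff₀ hn]
    exact h1
  have h6 : ((b : ℝ) ^ (v - j))⁻¹ = ((b : ℝ) ^ v)⁻¹ * (b : ℝ) ^ j := by
    rw [e2]
    field_simp
  calc |((b : ℝ) ^ j - (b : ℝ) ^ i) * x - P| ≤ ((b : ℝ) ^ v)⁻¹ * (b : ℝ) ^ j := by rw [← h6]; exact h5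
    _ ≤ ((b : ℝ) ^ v)⁻¹ * (2 * ((b : ℝ) ^ j - (b : ℝ) ^ i)) :=
      mul_le_mul_of_nonneg_left hhalf (by positivity)
    _ = _ := by ring

theorem pow_sub_bounds {b : ℕ} (hb : 2 ≤ b) {i j w : ℕ} (hij : i < j) (hj : j ≤ w) :
    1 ≤ b ^ j - b ^ i ∧ ((b ^ j - b ^ i : ℕ) : ℝ) ≤ (b : ℝ) ^ w := by
  have hpow : b ^ i < b ^ j := Nat.pow_lt_pow_right (by omega) hij
  refine ⟨by omega, ?_⟩
  have h2 : b ^ j - b ^ i ≤ b ^ w := (Nat.sub_le _ _).trans (Nat.pow_le_pow_right (by omega) hj)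
  exact_mod_cast h2

/-- a correct prediction during a long time gives a good rational approximation -/
theorem rational {b : ℕ} (hb : 2 ≤ b) (x : ℝ) {Q : Type} [Fintype Q] (δ : Q → ℤ → Q) (g : Q → ℤ)
    (q₀ : Q) (u v : ℕ) (huv : u + Fintype.card Q ≤ v)
    (h : ∀ i, u ≤ i → i < v → g (st δ (dg b x) q₀ 0 i) = dg b x (0 + i + 1)) :
    ∃ (q : ℕ) (p : ℤ), 1 ≤ q ∧ (q : ℝ) ≤ (b : ℝ) ^ (u + Fintype.card Q) ∧
      |x - (p : ℝ) / q| ≤ 2 * ((b : ℝ) ^ v)⁻¹ := by
  obtain ⟨i, j, hi, hij, hj, hrep⟩ := repetition δ g (dg b x) q₀ 0 u v huv h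
  rw [Nat.zero_add, Nat.zero_add] at hrep
  obtain ⟨h1, h2⟩ := pow_sub_bounds hb hij hj
  exact ⟨_, _, h1, h2, rat_rep hb x hij (hj.trans huv) hrep⟩

section
variable {ι : Type} [Fintype ι] (x : ι → ℝ) (b : ι → ℕ) {Q : ι → Type} [∀ i, Fintype (Q i)]
  (δ : ∀ i, Q i → ℤ → Q i) (g : ∀ i, Q i → ℤ) (q₀ : ∀ i, Q i)

/-- the size of the machines -/
noncomputable def siz (b : ι → ℕ) (Q : ι → Type) [∀ i, Fintype (Q i)] : ℝ :=
  ∑ i, (Fintype.card (Q i) : ℝ) * Real.log (b i)

/-- the joint measure -/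
def Joint (x : ι → ℝ) (κ D : ℝ) : Prop := ∀ (q : ι → ℕ) (p : ι → ℤ), (∀ i, 1 ≤ q i) →
  ∃ i, Real.exp (-D) * ∏ j, (q j : ℝ) ^ (-κ) ≤ |x i - (p i : ℝ) / q i|

/-- the total number of errors up to the scale `t` -/
noncomputable def tot (t : ℝ) : ℕ := ∑ i, err (δ i) (g i) (dg (b i) (x i)) (q₀ i) 0 (nd (b i) t)

theorem siz_ge (hb : ∀ i, 2 ≤ b i) (q₀ : ∀ i, Q i) (i : ι) :
    Real.log (b i) ≤ siz b Q ∧ (Fintype.card (Q i) : ℝ) * Real.log (b i) ≤ siz b Q := by
  have h0 : ∀ i ∈ (Finset.univ : Finset ι), 0 ≤ (Fintype.card (Q i) : ℝ) * Real.log (b i) := fun i _ =>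
    mul_nonneg (Nat.cast_nonneg _) (log_base_pos (hb i)).le
  have h1 : (Fintype.card (Q i) : ℝ) * Real.log (b i) ≤ siz b Q :=
    Finset.single_le_sum h0 (Finset.mem_univ i)
  have : Nonempty (Q i) := ⟨q₀ i⟩
  have hS : (1 : ℝ) ≤ Fintype.card (Q i) := by exact_mod_cast Fintype.card_pos (α := Q i)
  have h2 := log_base_pos (hb i)
  exact ⟨le_trans (by nlinarith) h1, h1⟩

/-- an interval of scales without errors -/
theorem segment [Nonempty ι] (hb : ∀ i, 2 ≤ b i) {κ D : ℝ} (hκ : 0 ≤ κ) (hD : 0 ≤ D)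
    (hρ : 1 < Fintype.card ι * κ) (hJ : Joint x κ D) {s t : ℝ} (hs : 0 ≤ s) (hst : s ≤ t)
    (h : ∀ i m, nd (b i) s ≤ m → m < nd (b i) t →
      (g i) (st (δ i) (dg (b i) (x i)) (q₀ i) 0 m) = dg (b i) (x i) (0 + m + 1)) :
    t ≤ Fintype.card ι * κ * s + (D + (κ + 2) * siz b Q) := by
  have ht : 0 ≤ t := hs.trans hst
  have hsz0 : 0 ≤ siz b Q := Finset.sum_nonneg fun i _ =>
    mul_nonneg (Nat.cast_nonneg _) (log_base_pos (hb i)).le
  by_cases hc : ∃ i, nd (b i) t < nd (b i) s + Fintype.card (Q i)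
  · obtain ⟨i, hi⟩ := hc
    have h1 := lt_nd_mul (hb i) t
    have h2 := nd_mul_le (hb i) hs
    have h3 := log_base_pos (hb i)
    have h4 : ((nd (b i) t : ℝ) + 1) ≤ (nd (b i) s : ℝ) + Fintype.card (Q i) := by exact_mod_cast hi
    have h5 := mul_le_mul_of_nonneg_right h4 h3.le
    have h6 := (siz_ge b hb q₀ i).2
    have h7 : s ≤ Fintype.card ι * κ * s := by nlinarith
    nlinarith
  · push Not at hc
    have hr := fun i => rational (hb i) (x i) (δ i) (g i) (q₀ i) (nd (b i) s) (nd (b i) t) (hc i) (h i)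
    choose q p hq1 hq2 hqx using hr
    obtain ⟨i, hi⟩ := hJ q p hq1
    have h1 := hi.trans (hqx i)
    have hlb := fun j => log_base_pos (hb j)
    have hq0 : ∀ j, (0 : ℝ) < q j := fun j => by exact_mod_cast (hq1 j)
    have hbp : (0 : ℝ) < (b i : ℝ) := by exact_mod_cast (show 0 < b i by have := hb i; omega)
    have hprod : 0 < ∏ j, (q j : ℝ) ^ (-κ) := Finset.prod_pos fun j _ => Real.rpow_pos_of_pos (hq0 j) _
    have h2 := Real.log_le_log (by positivity) h1
    rw [Real.log_mul (Real.exp_pos _).ne' hprod.ne', Real.log_exp,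
      Real.log_mul two_ne_zero (by positivity), Real.log_inv, Real.log_pow,
      Real.log_prod (fun j _ => (Real.rpow_pos_of_pos (hq0 j) _).ne')] at h2
    have h3 : ∀ j ∈ (Finset.univ : Finset ι), -(κ * (s + (Fintype.card (Q j) : ℝ) * Real.log (b j))) ≤
        Real.log ((q j : ℝ) ^ (-κ)) := by
      intro j _
      rw [Real.log_rpow (hq0 j)]
      have h4 := Real.log_le_log (hq0 j) (hq2 j)
      rw [Real.log_pow] at h4
      push_cast at h4
      have h5 := nd_mul_le (hb j) hs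
      have h6 : Real.log (q j) ≤ s + (Fintype.card (Q j) : ℝ) * Real.log (b j) := by nlinarith
      have := mul_le_mul_of_nonneg_left h6 hκ
      linarith
    have h4 := Finset.sum_le_sum h3
    rw [Finset.sum_neg_distrib, ← Finset.mul_sum, Finset.sum_add_distrib, Finset.sum_const,
      Finset.card_univ, nsmul_eq_mul] at h4
    have h5 := lt_nd_mul (hb i) t
    have h6 := (siz_ge b hb q₀ i).1
    have h7 : Real.log 2 ≤ Real.log (b i) := Real.log_le_log (by norm_num) (by exact_mod_cast hb i)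
    change -(κ * (Fintype.card ι * s + siz b Q)) ≤ _ at h4
    nlinarith

theorem err_mono {Q : Type} [Fintype Q] (δ : Q → ℤ → Q) (g : Q → ℤ) (s : ℕ → ℤ) (q₀ : Q) (A : ℕ)
    {m n : ℕ} (h : m ≤ n) : err δ g s q₀ A m ≤ err δ g s q₀ A n := by
  unfold err
  exact Finset.card_le_card (Finset.filter_subset_filter _ (Finset.range_mono h))

theorem err_lt {Q : Type} [Fintype Q] (δ : Q → ℤ → Q) (g : Q → ℤ) (s : ℕ → ℤ) (q₀ : Q) (A : ℕ)
    {m k n : ℕ} (h : m ≤ k) (hk : k < n) (he : g (st δ s q₀ A k) ≠ s (A + k + 1)) :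
    err δ g s q₀ A m < err δ g s q₀ A n := by
  unfold err
  apply Finset.card_lt_card
  rw [Finset.ssubset_iff_of_subset (Finset.filter_subset_filter _ (Finset.range_mono (h.trans hk.le)))]
  refine ⟨k, ?_, ?_⟩
  · rw [mem_filter, mem_range]
    exact ⟨hk, he⟩
  · rw [mem_filter, mem_range]
    omega

/-- the growth between errors -/
theorem growth [Nonempty ι] (hb : ∀ i, 2 ≤ b i) {κ D : ℝ} (hκ : 0 ≤ κ) (hD : 0 ≤ D)
    (hρ : 1 < Fintype.card ι * κ) (hJ : Joint x κ D) {α : ℝ}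
    (hα : α * (Fintype.card ι * κ - 1) = D + (κ + 2) * siz b Q) (hα0 : 0 ≤ α) (m : ℕ) :
    ∀ t : ℝ, 0 ≤ t → tot x b δ g q₀ t ≤ m → t + α ≤ (Fintype.card ι * κ) ^ (m + 1) * α := by
  set ρ : ℝ := Fintype.card ι * κ with hρdef
  have hzero : ∀ i, nd (b i) 0 = 0 := fun i => by
    unfold nd
    simp
  have base : ∀ t : ℝ, 0 ≤ t → tot x b δ g q₀ t = 0 → t + α ≤ ρ * α := by
    intro t ht h0
    have h1 := segment x b δ g q₀ hb hκ hD hρ hJ le_rfl ht (fun i m _ hm => by
      by_contra hne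
      have h2 := err_lt (δ i) (g i) (dg (b i) (x i)) (q₀ i) 0 (Nat.zero_le m) hm hne
      have h3 : err (δ i) (g i) (dg (b i) (x i)) (q₀ i) 0 (nd (b i) t) = 0 :=
        (Finset.sum_eq_zero_iff.1 h0) i (Finset.mem_univ i)
      omega)
    rw [mul_zero, zero_add] at h1
    linarith
  induction m with
  | zero =>
    intro t ht h
    rw [zero_add, pow_one]
    exact base t ht (Nat.le_zero.1 h)
  | succ m ih =>
    intro t ht h
    have hρ1 : 1 ≤ ρ := hρ.le
    by_cases h0 : tot x b δ g q₀ t = 0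
    · have h1 := base t ht h0
      have h2 : ρ * α ≤ ρ ^ (m + 1 + 1) * α := by
        apply mul_le_mul_of_nonneg_right _ hα0
        calc ρ = ρ ^ 1 := (pow_one ρ).symm
          _ ≤ _ := pow_le_pow_right₀ hρ1 (by omega)
      linarith
    · -- the last error
      classical
      set W : Finset (Σ _ : ι, ℕ) := (Finset.univ : Finset ι).sigma (fun i =>
        (range (nd (b i) t)).filter (fun k => (g i) (st (δ i) (dg (b i) (x i)) (q₀ i) 0 k) ≠
          dg (b i) (x i) (0 + k + 1))) with hW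
      have hWne : W.Nonempty := by
        rw [Finset.nonempty_iff_ne_empty]
        intro hemp
        apply h0
        unfold tot
        apply Finset.sum_eq_zero
        intro i _
        unfold err
        rw [Finset.card_eq_zero, Finset.eq_empty_iff_forall_notMem]
        intro k hk
        have : (⟨i, k⟩ : Σ _ : ι, ℕ) ∈ W := by
          rw [hW, Finset.mem_sigma]
          exact ⟨Finset.mem_univ _, hk⟩
        rw [hemp] at this
        exact absurd this (Finset.notMem_empty _)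
      obtain ⟨⟨i0, k0⟩, hmem, hmax⟩ := Finset.exists_max_image W
        (fun w => ((w.2 : ℝ) + 1) * Real.log (b w.1)) hWne
      rw [hW, Finset.mem_sigma, mem_filter, mem_range] at hmem
      obtain ⟨_, hk0, hek0⟩ := hmem
      set s : ℝ := ((k0 : ℝ) + 1) * Real.log (b i0) with hs
      have hs0 : 0 < s := mul_pos (by positivity) (log_base_pos (hb i0))
      have hst : s ≤ t := by
        have h1 := nd_mul_le (hb i0) ht
        have h2 : ((k0 : ℝ) + 1) ≤ nd (b i0) t := by exact_mod_cast hk0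
        exact (mul_le_mul_of_nonneg_right h2 (log_base_pos (hb i0)).le).trans h1
      have hseg := segment x b δ g q₀ hb hκ hD hρ hJ hs0.le hst (fun i k hk1 hk2 => by
        by_contra hne
        have hm : (⟨i, k⟩ : Σ _ : ι, ℕ) ∈ W := by
          rw [hW, Finset.mem_sigma, mem_filter, mem_range]
          exact ⟨Finset.mem_univ _, hk2, hne⟩
        have h1 := hmax _ hm
        have h2 : k + 1 ≤ nd (b i) s := le_nd (hb i) (by push_cast; exact h1)
        omega)
      have hs2 : s + α ≤ ρ ^ (m + 1) * α := by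
        by_contra hcon
        push Not at hcon
        set B : ℝ := ρ ^ (m + 1) * α - α with hB
        have hB0 : 0 ≤ B := by
          have : (1 : ℝ) ≤ ρ ^ (m + 1) := one_le_pow₀ hρ1
          rw [hB]
          nlinarith
        have hBs : B < s := by rw [hB]; linarith
        have h1 : tot x b δ g q₀ ((s + B) / 2) ≤ m := by
          have h2 : tot x b δ g q₀ ((s + B) / 2) < tot x b δ g q₀ t := by
            unfold tot
            apply Finset.sum_lt_sum
            · intro i _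
              apply err_mono
              unfold nd
              apply Nat.floor_le_floor
              apply div_le_div_of_nonneg_right _ (log_base_pos (hb i)).le
              linarith
            · refine ⟨i0, Finset.mem_univ _, ?_⟩
              apply err_lt _ _ _ _ _ (nd_lt (hb i0) (by linarith) _) hk0 hek0
              rw [← hs]
              linarith
          omega
        have h3 := ih ((s + B) / 2) (by linarith) h1
        rw [hB] at h3 hBs
        linarith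
      rw [pow_succ]
      nlinarith

/-- **the main inequality** -/
theorem main [Nonempty ι] (hb : ∀ i, 2 ≤ b i) {κ D : ℝ} (hκ : 0 ≤ κ) (hD : 0 ≤ D)
    (hρ : 1 < Fintype.card ι * κ) (hJ : Joint x κ D) (N : ι → ℕ) {t : ℝ} (ht : 0 < t)
    (hN : ∀ i, t ≤ N i * Real.log (b i)) :
    (Real.log t - Real.log (D + siz b Q)) / Real.log (Fintype.card ι * κ) -
      (1 + Real.log ((κ + 2) / (Fintype.card ι * κ - 1)) / Real.log (Fintype.card ι * κ)) ≤
      ((∑ i, err (δ i) (g i) (dg (b i) (x i)) (q₀ i) 0 (N i) : ℕ) : ℝ) := by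
  set ρ : ℝ := Fintype.card ι * κ with hρdef
  have hρ0 : 0 < ρ - 1 := by linarith
  have hlρ : 0 < Real.log ρ := Real.log_pos hρ
  obtain ⟨i1⟩ := (inferInstance : Nonempty ι)
  have hsz : 0 < siz b Q := (log_base_pos (hb i1)).trans_le (siz_ge b hb q₀ i1).1
  set α : ℝ := (D + (κ + 2) * siz b Q) / (ρ - 1) with hα
  have hα1 : α * (ρ - 1) = D + (κ + 2) * siz b Q := by
    rw [hα]
    field_simp
  have hα0 : 0 < α := by rw [hα]; positivity
  have h1 := growth x b δ g q₀ hb hκ hD hρ hJ hα1 hα0.le (tot x b δ g q₀ t) t ht.le le_rfl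
  have h2 : tot x b δ g q₀ t ≤ ∑ i, err (δ i) (g i) (dg (b i) (x i)) (q₀ i) 0 (N i) := by
    unfold tot
    apply Finset.sum_le_sum
    intro i _
    exact err_mono _ _ _ _ _ (nd_le (hb i) ht.le (hN i))
  have h3 : (tot x b δ g q₀ t : ℝ) ≤ ((∑ i, err (δ i) (g i) (dg (b i) (x i)) (q₀ i) 0 (N i) : ℕ) : ℝ) := by
    exact_mod_cast h2
  have h4 : α ≤ (κ + 2) / (ρ - 1) * (D + siz b Q) := by
    rw [hα, div_mul_eq_mul_div]
    apply div_le_div_of_nonneg_right _ hρ0.le
    nlinarith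
  have hρpos : 0 < ρ := by linarith
  have h5 : t ≤ ρ ^ (tot x b δ g q₀ t + 1) * ((κ + 2) / (ρ - 1) * (D + siz b Q)) := by
    have h6 := mul_le_mul_of_nonneg_left h4 (show 0 ≤ ρ ^ (tot x b δ g q₀ t + 1) by positivity)
    linarith
  have h6 := Real.log_le_log ht h5
  have hDs : 0 < D + siz b Q := by linarith
  rw [Real.log_mul (by positivity) (by positivity), Real.log_mul (by positivity) hDs.ne',
    Real.log_pow] at h6
  push_cast at h6
  have h7 : (Real.log t - Real.log (D + siz b Q) - Real.log ((κ + 2) / (ρ - 1))) / Real.log ρ ≤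
      (tot x b δ g q₀ t : ℝ) + 1 := (div_le_iff₀ hlρ).2 (by linarith)
  rw [sub_div] at h7
  linarith

end

/-- two types as a family -/
def fam2 (Q Q' : Type) : Bool → Type
  | true => Q
  | false => Q'

instance fam2.instFintype (Q Q' : Type) [Fintype Q] [Fintype Q'] : ∀ i, Fintype (fam2 Q Q' i)
  | true => inferInstanceAs (Fintype Q)
  | false => inferInstanceAs (Fintype Q')

/-- two machines -/
theorem main_two {x y κ D : ℝ} (hκ : 1 < 2 * κ) (hD : 0 ≤ D)
    (hJ : ∀ (q q' : ℕ) (p p' : ℤ), 1 ≤ q → 1 ≤ q' → ∀ S : ℝ, |x - (p : ℝ) / q| ≤ S →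
      |y - (p' : ℝ) / q'| ≤ S → Real.exp (-D) * ((q : ℝ) * q') ^ (-κ) ≤ S)
    {b c : ℕ} (hb : 2 ≤ b) (hc : 2 ≤ c) {Q Q' : Type} [Fintype Q] [Fintype Q'] (δ : Q → ℤ → Q)
    (g : Q → ℤ) (q₀ : Q) (δ' : Q' → ℤ → Q') (g' : Q' → ℤ) (q₀' : Q') (N N' : ℕ) {t : ℝ} (ht : 0 < t)
    (hN : t ≤ N * Real.log b) (hN' : t ≤ N' * Real.log c) :
    (Real.log t - Real.log (D + (Fintype.card Q * Real.log b + Fintype.card Q' * Real.log c))) /
      Real.log (2 * κ) - (1 + Real.log ((κ + 2) / (2 * κ - 1)) / Real.log (2 * κ)) ≤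
      (err δ g (dg b x) q₀ 0 N : ℝ) + err δ' g' (dg c y) q₀' 0 N' := by
  let xx : Bool → ℝ := fun i => cond i x y
  let bb : Bool → ℕ := fun i => cond i b c
  let δδ : ∀ i, fam2 Q Q' i → ℤ → fam2 Q Q' i := fun i => match i with
    | true => δ
    | false => δ'
  let gg : ∀ i, fam2 Q Q' i → ℤ := fun i => match i with
    | true => g
    | false => g'
  let qq : ∀ i, fam2 Q Q' i := fun i => match i with
    | true => q₀
    | false => q₀'
  have hJ2 : Joint xx κ D := by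
    intro q p hq
    by_contra hcon
    push Not at hcon
    have h0 := hcon true
    have h1 := hcon false
    rw [Fintype.prod_bool] at h0 h1
    have e1 : (q true : ℝ) ^ (-κ) * (q false : ℝ) ^ (-κ) = ((q true : ℝ) * q false) ^ (-κ) := by
      rw [Real.mul_rpow (by positivity) (by positivity)]
    rw [e1] at h0 h1
    have h2 := hJ (q true) (q false) (p true) (p false) (hq true) (hq false)
      (max |x - (p true : ℝ) / q true| |y - (p false : ℝ) / q false|) (le_max_left _ _) (le_max_right _ _)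
    have h3 : max |x - (p true : ℝ) / q true| |y - (p false : ℝ) / q false| <
        Real.exp (-D) * ((q true : ℝ) * q false) ^ (-κ) := max_lt h0 h1
    linarith
  have hcard : (Fintype.card Bool : ℝ) = 2 := by norm_num
  have hm := main xx bb δδ gg qq (fun i => by cases i <;> assumption) (κ := κ) (D := D) (by linarith) hD
    (by rw [hcard]; exact hκ) hJ2 (fun i => cond i N N') ht (fun i => by cases i <;> assumption)
  rw [hcard, Fintype.sum_bool] at hm
  have hs : siz bb (fam2 Q Q') = Fintype.card Q * Real.log b + Fintype.card Q' * Real.log c := by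
    unfold siz
    rw [Fintype.sum_bool]
    rfl
  rw [hs] at hm
  push_cast at hm
  exact hm

end Pool.Agent.V11015.FS
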