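import Pool.Agent.V11210.EP.Rat

/-! Joint lower bounds for two forms in `e` and an arbitrary real number. -/

set_option autoImplicit false

namespace Pool.Agent.V11015.FS

open Real

theorem coreE (η : ℝ) (hη : 0 < η) : ∃ c : ℝ, 0 < c ∧ c ≤ 1 ∧ ∀ A B : ℤ, A ≠ 0 → ∀ h S : ℝ, 1 ≤ h → 0 ≤ S →
    |(A : ℝ)| ≤ h → |(B : ℝ) + A * exp 1| ≤ h * S → c * h ^ (-(2 + η)) ≤ S := by
  obtain ⟨c0, hc0, h0⟩ := Pool.Agent.V11210.EP.lin1 η hη
  have hE : 0 < 1 + exp 1 := by positivity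
  refine ⟨min 1 (c0 / (1 + exp 1) ^ (1 + η)), lt_min one_pos (by positivity), min_le_left _ _, ?_⟩
  intro A B hA0 h S hh1 hS0 hAh hev
  have hh0 : 0 < h := by linarith
  have hpow1 : h ^ (-(2 + η)) ≤ 1 := Real.rpow_le_one_of_one_le_of_nonpos hh1 (by linarith)
  have hpow0 : 0 ≤ h ^ (-(2 + η)) := by positivity
  rcases le_or_gt 1 S with hS | hS
  · calc min 1 (c0 / (1 + exp 1) ^ (1 + η)) * h ^ (-(2 + η)) ≤ 1 * 1 :=
          mul_le_mul (min_le_left _ _) hpow1 hpow0 zero_le_one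
      _ ≤ S := by linarith
  · have hBh : |(B : ℝ)| ≤ h * (1 + exp 1) := by
      have e2 : (B : ℝ) = (B + A * exp 1) - A * exp 1 := by ring
      rw [e2]
      refine (abs_sub _ _).trans ?_
      rw [abs_mul, abs_of_pos (exp_pos 1)]
      have h4 : |(A : ℝ)| * exp 1 ≤ h * exp 1 := mul_le_mul_of_nonneg_right hAh (exp_pos 1).le
      nlinarith
    have hA2 : |(A : ℝ)| ≤ h * (1 + exp 1) := by
      have := exp_pos 1
      nlinarith
    have h3 := h0 B A (Or.inr hA0) (h * (1 + exp 1)) (by nlinarith [exp_pos 1]) hBh hA2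
    rw [Real.mul_rpow hh0.le hE.le] at h3
    have h4 : c0 ≤ (h ^ (1 + η) * (1 + exp 1) ^ (1 + η)) * (h * S) :=
      h3.trans (mul_le_mul_of_nonneg_left hev (by positivity))
    have e3 : h ^ (1 + η) * h = h ^ (2 + η) := by
      rw [← Real.rpow_add_one hh0.ne']
      congr 1
      ring
    have h5 : c0 / (1 + exp 1) ^ (1 + η) ≤ h ^ (2 + η) * S := by
      rw [div_le_iff₀ (by positivity)]
      calc c0 ≤ (h ^ (1 + η) * (1 + exp 1) ^ (1 + η)) * (h * S) := h4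
        _ = (h ^ (1 + η) * h) * S * (1 + exp 1) ^ (1 + η) := by ring
        _ = _ := by rw [e3]
    have h6 : min 1 (c0 / (1 + exp 1) ^ (1 + η)) ≤ h ^ (2 + η) * S := (min_le_right _ _).trans h5
    rw [Real.rpow_neg hh0.le, ← div_eq_mul_inv, div_le_iff₀ (by positivity)]
    linarith

/-- the common part of the two following theorems: the multiplier is `m`, a common multiple of the
denominators `q = m / k`, `q' = m / k'` -/
theorem pair_core (η : ℝ) (hη : 0 < η) : ∃ c : ℝ, 0 < c ∧ c ≤ 1 ∧ ∀ (t : ℝ) (a r s a' r' s' : ℤ) (d d' : ℕ)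
    (H : ℝ), 1 ≤ H → |(a : ℝ)| ≤ H → |(r : ℝ)| ≤ H → |(a' : ℝ)| ≤ H → |(r' : ℝ)| ≤ H → 1 ≤ d → 1 ≤ d' →
    (d : ℝ) ≤ H → (d' : ℝ) ≤ H → a' * r ≠ a * r' → ∀ (p p' : ℤ) (q q' k k' m : ℕ), 1 ≤ q → 1 ≤ q' →
    1 ≤ m → m = q * k → m = q' * k' →
    ∀ S : ℝ, |(a * t + r * exp 1 + s) / d - (p : ℝ) / q| ≤ S →
      |(a' * t + r' * exp 1 + s') / d' - (p' : ℝ) / q'| ≤ S →
      c * (2 * H ^ 2 * m) ^ (-(2 + η)) ≤ S := by
  obtain ⟨c, hc, hc1, hcore⟩ := coreE η hη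
  refine ⟨c, hc, hc1, ?_⟩
  intro t a r s a' r' s' d d' H hH ha hr ha' hr' hd hd' hdH hdH' hne p p' q q' k k' m hq hq' hm hk hk' S
    h1 h2
  have hq0 : (0 : ℝ) < q := by exact_mod_cast hq
  have hq0' : (0 : ℝ) < q' := by exact_mod_cast hq'
  have hd0 : (0 : ℝ) < d := by exact_mod_cast hd
  have hd0' : (0 : ℝ) < d' := by exact_mod_cast hd'
  have hm1 : (1 : ℝ) ≤ m := by exact_mod_cast hm
  have hm0 : (0 : ℝ) < m := by linarith
  have hH0 : 0 < H := by linarith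
  have hS0 : 0 ≤ S := (abs_nonneg _).trans h1
  set x : ℝ := (a * t + r * exp 1 + s) / d with hx
  set y : ℝ := (a' * t + r' * exp 1 + s') / d' with hy
  have hH2 : (1 : ℝ) ≤ H ^ 2 := one_le_pow₀ hH
  have hkR : (m : ℝ) * ((p : ℝ) / q) = k * p := by
    rw [hk]
    push_cast
    field_simp
  have hkR' : (m : ℝ) * ((p' : ℝ) / q') = k' * p' := by
    rw [hk']
    push_cast
    field_simp
  set A : ℤ := m * (a' * r - a * r') with hA
  set B : ℤ := m * (a' * s - a * s') - a' * d * k * p + a * d' * k' * p' with hB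
  have hA0 : A ≠ 0 := by
    rw [hA]
    refine mul_ne_zero ?_ (sub_ne_zero.2 hne)
    exact_mod_cast (show m ≠ 0 by omega)
  have ev : (B : ℝ) + A * exp 1 = m * (a' * d * (x - (p : ℝ) / q) - a * d' * (y - (p' : ℝ) / q')) := by
    have hdx : (d : ℝ) * x = a * t + r * exp 1 + s := by
      rw [hx]; field_simp
    have hdy : (d' : ℝ) * y = a' * t + r' * exp 1 + s' := by
      rw [hy]; field_simp
    have e1 : (m : ℝ) * (a' * d * (x - (p : ℝ) / q) - a * d' * (y - (p' : ℝ) / q')) =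
        m * (a' * (d * x) - a * (d' * y)) - a' * d * (m * ((p : ℝ) / q)) + a * d' * (m * ((p' : ℝ) / q')) := by
      ring
    rw [e1, hdx, hdy, hkR, hkR', hA, hB]
    push_cast
    ring
  refine hcore A B hA0 (2 * H ^ 2 * m) S (by nlinarith) hS0 ?_ ?_
  · rw [hA]
    push_cast
    rw [abs_mul, abs_of_pos hm0]
    have h3 : |(a' : ℝ) * r - a * r'| ≤ 2 * H ^ 2 := by
      refine (abs_sub _ _).trans ?_
      rw [abs_mul, abs_mul]
      have h4 : |(a' : ℝ)| * |(r : ℝ)| ≤ H * H := mul_le_mul ha' hr (abs_nonneg _) hH0.le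
      have h5 : |(a : ℝ)| * |(r' : ℝ)| ≤ H * H := mul_le_mul ha hr' (abs_nonneg _) hH0.le
      nlinarith
    nlinarith
  · rw [ev, abs_mul, abs_of_pos hm0]
    have h3 : |(a' : ℝ) * d * (x - (p : ℝ) / q) - a * d' * (y - (p' : ℝ) / q')| ≤ 2 * H ^ 2 * S := by
      refine (abs_sub _ _).trans ?_
      rw [abs_mul, abs_mul, abs_mul, abs_mul, abs_of_pos hd0, abs_of_pos hd0']
      have h4 : |(a' : ℝ)| * d * |x - (p : ℝ) / q| ≤ H * H * S :=
        mul_le_mul (mul_le_mul ha' hdH hd0.le hH0.le) h1 (abs_nonneg _) (by positivity)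
      have h5 : |(a : ℝ)| * d' * |y - (p' : ℝ) / q'| ≤ H * H * S :=
        mul_le_mul (mul_le_mul ha hdH' hd0'.le hH0.le) h2 (abs_nonneg _) (by positivity)
      nlinarith
    calc (m : ℝ) * |(a' : ℝ) * d * (x - (p : ℝ) / q) - a * d' * (y - (p' : ℝ) / q')| ≤
          m * (2 * H ^ 2 * S) := mul_le_mul_of_nonneg_left h3 hm0.le
      _ = _ := by ring

end Pool.Agent.V11015.FS
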