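import Pool.Agent.V11015.FS.Joint
import Pool.Agent.V11015.FS.PairE

/-! Two forms in `e` and an arbitrary real number: errors of machines. -/

set_option autoImplicit false

namespace Pool.Agent.V11015.FS

open Finset Pool.Agent.V60.FSP

/-- the value of a form -/
noncomputable def val (t : ℝ) (a r s : ℤ) (d : ℕ) : ℝ := (a * t + r * Real.exp 1 + s) / d

/-- the joint measure of two forms -/
theorem joint_two (η : ℝ) (hη : 0 < η) : ∃ K : ℝ, 0 ≤ K ∧ ∀ (t : ℝ) (a r s a' r' s' : ℤ) (d d' : ℕ)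
    (H : ℝ), 1 ≤ H → |(a : ℝ)| ≤ H → |(r : ℝ)| ≤ H → |(a' : ℝ)| ≤ H → |(r' : ℝ)| ≤ H → 1 ≤ d → 1 ≤ d' →
    (d : ℝ) ≤ H → (d' : ℝ) ≤ H → a' * r ≠ a * r' →
    (∀ (q q' : ℕ) (p p' : ℤ), 1 ≤ q → 1 ≤ q' → ∀ S : ℝ, |val t a r s d - (p : ℝ) / q| ≤ S →
      |val t a' r' s' d' - (p' : ℝ) / q'| ≤ S →
      Real.exp (-(K * (1 + Real.log H))) * ((q : ℝ) * q') ^ (-(2 + η)) ≤ S) ∧
    (∀ (q : ℕ) (p p' : ℤ), 1 ≤ q → ∀ S : ℝ, |val t a r s d - (p : ℝ) / q| ≤ S →
      |val t a' r' s' d' - (p' : ℝ) / q| ≤ S →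
      Real.exp (-(K * (1 + Real.log H))) * (q : ℝ) ^ (-(2 + η)) ≤ S) := by
  obtain ⟨c, hc, hc1, hp⟩ := pair_core η hη
  have hlc : Real.log c ≤ 0 := Real.log_nonpos hc.le hc1
  have hl2 : 0 < Real.log 2 := Real.log_pos one_lt_two
  refine ⟨-Real.log c + 2 * (2 + η), by linarith, ?_⟩
  intro t a r s a' r' s' d d' H hH ha hr ha' hr' hd hd' hdH hdH' hne
  have hlH : 0 ≤ Real.log H := Real.log_nonneg hH
  have hH0 : 0 < H := by linarith
  set D : ℝ := (-Real.log c + 2 * (2 + η)) * (1 + Real.log H) with hD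
  have key : ∀ m : ℝ, 1 ≤ m → Real.exp (-D) * m ^ (-(2 + η)) ≤ c * (2 * H ^ 2 * m) ^ (-(2 + η)) := by
    intro m hm
    have hm0 : 0 < m := by linarith
    rw [Real.mul_rpow (by positivity) hm0.le, ← mul_assoc]
    apply mul_le_mul_of_nonneg_right _ (by positivity)
    rw [← Real.log_le_log_iff (Real.exp_pos _) (by positivity), Real.log_exp,
      Real.log_mul hc.ne' (by positivity), Real.log_rpow (by positivity),
      Real.log_mul two_ne_zero (by positivity), Real.log_pow, hD]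
    have h2 : Real.log 2 ≤ 1 := by
      have := Real.log_two_lt_d9
      linarith
    push_cast
    nlinarith [mul_nonneg (neg_nonneg.2 hlc) hlH, mul_nonneg hη.le hlH]
  constructor
  · intro q q' p p' hq hq' S h1 h2
    have hq0 : (1 : ℝ) ≤ q := by exact_mod_cast hq
    have hq1 : (1 : ℝ) ≤ q' := by exact_mod_cast hq'
    have h2 := hp t a r s a' r' s' d d' H hH ha hr ha' hr' hd hd' hdH hdH' hne p p' q q'
      q' q (q * q') hq hq' (Nat.mul_pos hq hq') rfl (mul_comm _ _) S h1 h2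
    push_cast at h2
    exact (key ((q : ℝ) * q') (by nlinarith)).trans h2
  · intro q p p' hq S h1 h2
    have hq1 : (1 : ℝ) ≤ q := by exact_mod_cast hq
    have h3 := hp t a r s a' r' s' d d' H hH ha hr ha' hr' hd hd' hdH hdH' hne p p' q q 1 1 q hq hq hq
      (mul_one _).symm (mul_one _).symm S h1 h2
    exact (key q hq1).trans h3

/-- the shape of the bounds: an additive constant under the logarithm costs a constant -/
theorem log_shape {A B K : ℝ} (hA : 0 < A) (hK : 0 ≤ K) (hB : B ≤ K * A) (hAB : 0 < B + A) :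
    Real.log (B + A) ≤ Real.log A + Real.log (1 + K) := by
  rw [← Real.log_mul hA.ne' (by positivity)]
  apply Real.log_le_log hAB
  linarith

/-- two machines, two forms, own bases -/
theorem two_forms (η : ℝ) (hη : 0 < η) : ∃ C : ℝ, ∀ (t : ℝ) (a r s a' r' s' : ℤ) (d d' : ℕ)
    (H : ℝ), 1 ≤ H → |(a : ℝ)| ≤ H → |(r : ℝ)| ≤ H → |(a' : ℝ)| ≤ H → |(r' : ℝ)| ≤ H → 1 ≤ d → 1 ≤ d' →
    (d : ℝ) ≤ H → (d' : ℝ) ≤ H → a' * r ≠ a * r' → ∀ b c : ℕ, 2 ≤ b → 2 ≤ c →
    ∀ (Q Q' : Type) [Fintype Q] [Fintype Q'] (δ : Q → ℤ → Q)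
    (g : Q → ℤ) (q₀ : Q) (δ' : Q' → ℤ → Q') (g' : Q' → ℤ) (q₀' : Q') (N N' : ℕ), 1 ≤ N → 1 ≤ N' →
    (Real.log (min (N * Real.log b) (N' * Real.log c)) -
      Real.log (Fintype.card Q * Real.log b + Fintype.card Q' * Real.log c + Real.log H)) /
      Real.log (4 + η) - C ≤
      (err δ g (dg b (val t a r s d)) q₀ 0 N : ℝ) + err δ' g' (dg c (val t a' r' s' d')) q₀' 0 N' := by
  obtain ⟨K, hK, h⟩ := joint_two (η / 2) (by positivity)
  have hl2 : 0 < Real.log 2 := Real.log_pos one_lt_two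
  have hl4 : 0 < Real.log (4 + η) := Real.log_pos (by linarith)
  set κ : ℝ := 2 + η / 2 with hκ
  have h2κ : 2 * κ = 4 + η := by rw [hκ]; ring
  refine ⟨1 + Real.log ((κ + 2) / (2 * κ - 1)) / Real.log (2 * κ) +
    Real.log (1 + (K / Real.log 2 + K)) / Real.log (4 + η), ?_⟩
  intro t a r s a' r' s' d d' H hH ha hr ha' hr' hd hd' hdH hdH' hne b c hb hc Q Q' _ _ δ g q₀ δ' g' q₀'
    N N' hN hN'
  have hlH : 0 ≤ Real.log H := Real.log_nonneg hH
  have hlb := log_base_pos hb
  have hlc := log_base_pos hc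
  have hN1 : (1 : ℝ) ≤ N := by exact_mod_cast hN
  have hN1' : (1 : ℝ) ≤ N' := by exact_mod_cast hN'
  have ht : 0 < min (N * Real.log b) (N' * Real.log c) := lt_min (by positivity) (by positivity)
  have h1 := main_two (κ := κ) (by rw [h2κ]; linarith) (D := K * (1 + Real.log H)) (by positivity)
    (h t a r s a' r' s' d d' H hH ha hr ha' hr' hd hd' hdH hdH' hne).1 hb hc δ g q₀ δ' g' q₀' N N' ht
    (min_le_left _ _) (min_le_right _ _)
  have : Nonempty Q := ⟨q₀⟩
  have hS : (1 : ℝ) ≤ Fintype.card Q := by exact_mod_cast Fintype.card_pos (α := Q)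
  have hS' : (0 : ℝ) ≤ Fintype.card Q' := Nat.cast_nonneg _
  set Z : ℝ := Fintype.card Q * Real.log b + Fintype.card Q' * Real.log c with hZ
  have hlb2 : Real.log 2 ≤ Real.log b := Real.log_le_log (by norm_num) (by exact_mod_cast hb)
  have hZ2 : Real.log 2 ≤ Z := by
    rw [hZ]
    nlinarith [mul_nonneg hS' hlc.le]
  have hZH : 0 < Z + Real.log H := by linarith
  have h2 : Real.log (K * (1 + Real.log H) + Z) ≤ Real.log (Z + Real.log H) +
      Real.log (1 + (K / Real.log 2 + K)) := by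
    have e1 : K * (1 + Real.log H) + Z ≤ K * (1 + Real.log H) + (Z + Real.log H) := by linarith
    refine (Real.log_le_log (by positivity) e1).trans (log_shape hZH (by positivity) ?_ (by positivity))
    have e2 : K = K / Real.log 2 * Real.log 2 := by field_simp
    have e3 : K ≤ K / Real.log 2 * (Z + Real.log H) := by
      calc K = K / Real.log 2 * Real.log 2 := e2
        _ ≤ _ := mul_le_mul_of_nonneg_left (by linarith) (by positivity)
    nlinarith
  rw [h2κ] at h1
  rw [h2κ]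
  have h3 : (Real.log (min (N * Real.log b) (N' * Real.log c)) - (Real.log (Z + Real.log H) +
      Real.log (1 + (K / Real.log 2 + K)))) / Real.log (4 + η) ≤
      (Real.log (min (N * Real.log b) (N' * Real.log c)) - Real.log (K * (1 + Real.log H) + Z)) /
        Real.log (4 + η) := div_le_div_of_nonneg_right (by linarith) hl4.le
  have e4 : (Real.log (min (N * Real.log b) (N' * Real.log c)) - (Real.log (Z + Real.log H) +
      Real.log (1 + (K / Real.log 2 + K)))) / Real.log (4 + η) =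
      (Real.log (min (N * Real.log b) (N' * Real.log c)) - Real.log (Z + Real.log H)) / Real.log (4 + η) -
      Real.log (1 + (K / Real.log 2 + K)) / Real.log (4 + η) := by ring
  linarith

/-- one machine which reads and predicts both numbers in a common base -/
theorem joint_forms (η : ℝ) (hη : 0 < η) : ∃ C : ℝ, ∀ (t : ℝ) (a r s a' r' s' : ℤ) (d d' : ℕ)
    (H : ℝ), 1 ≤ H → |(a : ℝ)| ≤ H → |(r : ℝ)| ≤ H → |(a' : ℝ)| ≤ H → |(r' : ℝ)| ≤ H → 1 ≤ d → 1 ≤ d' →
    (d : ℝ) ≤ H → (d' : ℝ) ≤ H → a' * r ≠ a * r' → ∀ b : ℕ, 2 ≤ b →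
    ∀ (Q : Type) [Fintype Q] (δ : Q → ℤ → Q) (g : Q → ℤ) (q₀ : Q) (n : ℕ), 1 ≤ n →
    (Real.log n - Real.log (Fintype.card Q + Real.log H)) / Real.log (2 + η) - C ≤
      (err δ g (pr b (val t a r s d) (val t a' r' s' d')) q₀ 0 n : ℝ) := by
  obtain ⟨K, hK, h⟩ := joint_two η hη
  have hl2 : 0 < Real.log 2 := Real.log_pos one_lt_two
  have hl : 0 < Real.log (2 + η) := Real.log_pos (by linarith)
  refine ⟨1 + Real.log (2 * (2 + η) / (2 + η - 1)) / Real.log (2 + η) +
    Real.log (1 + (1 + K / Real.log 2)) / Real.log (2 + η), ?_⟩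
  intro t a r s a' r' s' d d' H hH ha hr ha' hr' hd hd' hdH hdH' hne b hb Q _ δ g q₀ n hn
  have hlH : 0 ≤ Real.log H := Real.log_nonneg hH
  have hlb := log_base_pos hb
  have h1 := main_joint hb _ _ (2 + η) (K * (1 + Real.log H)) (by linarith) (by positivity)
    (h t a r s a' r' s' d d' H hH ha hr ha' hr' hd hd' hdH hdH' hne).2 δ g q₀ n hn
  have : Nonempty Q := ⟨q₀⟩
  have hS : (1 : ℝ) ≤ Fintype.card Q := by exact_mod_cast Fintype.card_pos (α := Q)
  have hlb2 : Real.log 2 ≤ Real.log b := Real.log_le_log (by norm_num) (by exact_mod_cast hb)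
  have hA : 0 < (Fintype.card Q : ℝ) + Real.log H := by linarith
  have h2 : Real.log (Fintype.card Q + (1 + K * (1 + Real.log H) / Real.log b)) ≤
      Real.log (Fintype.card Q + Real.log H) + Real.log (1 + (1 + K / Real.log 2)) := by
    have e1 : (Fintype.card Q : ℝ) + (1 + K * (1 + Real.log H) / Real.log b) ≤
        (1 + K * (1 + Real.log H) / Real.log 2) + (Fintype.card Q + Real.log H) := by
      have e3 : K * (1 + Real.log H) / Real.log b ≤ K * (1 + Real.log H) / Real.log 2 :=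
        div_le_div_of_nonneg_left (by positivity) hl2 hlb2
      linarith
    refine (Real.log_le_log (by positivity) e1).trans (log_shape hA (by positivity) ?_ (by positivity))
    have e2 : K * (1 + Real.log H) / Real.log 2 = K / Real.log 2 * (1 + Real.log H) := by ring
    rw [e2]
    have e3 : K / Real.log 2 * (1 + Real.log H) ≤ K / Real.log 2 * (Fintype.card Q + Real.log H) :=
      mul_le_mul_of_nonneg_left (by linarith) (by positivity)
    linarith
  have h3 : (Real.log n - (Real.log (Fintype.card Q + Real.log H) +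
      Real.log (1 + (1 + K / Real.log 2)))) / Real.log (2 + η) ≤
      (Real.log n - Real.log (Fintype.card Q + (1 + K * (1 + Real.log H) / Real.log b))) /
        Real.log (2 + η) := div_le_div_of_nonneg_right (by linarith) hl.le
  have e4 : (Real.log n - (Real.log (Fintype.card Q + Real.log H) +
      Real.log (1 + (1 + K / Real.log 2)))) / Real.log (2 + η) =
      (Real.log n - Real.log (Fintype.card Q + Real.log H)) / Real.log (2 + η) -
      Real.log (1 + (1 + K / Real.log 2)) / Real.log (2 + η) := by ring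
  linarith

end Pool.Agent.V11015.FS
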