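import Pool.Agent.V11015.FS.Several
import Pool.Agent.TH550.NRZ.Elim

/-! Forms in numbers with a measure of linear independence and in arbitrary real numbers: errors of
machines. -/

set_option autoImplicit false

namespace Pool.Agent.V11015.FS

open Finset Pool.Agent.V60.FSP Pool.Agent.W472.AC

/-- the value of a form with denominator -/
noncomputable def fval {m r : ℕ} (θ : Fin (m + 1) → ℝ) (t : Fin r → ℝ) (a : Fin (m + 1) → ℤ)
    (e : Fin r → ℤ) (d : ℕ) : ℝ := ((∑ j, (a j : ℝ) * θ j) + ∑ l, (e l : ℝ) * t l) / d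

/-- linear independence without the additive constants -/
def Indep {m r : ℕ} (a : Fin (r + 1) → Fin (m + 1) → ℤ) (e : Fin (r + 1) → Fin r → ℤ) : Prop :=
  LinearIndependent ℤ (fun i => ((fun j : Fin m => a i j.succ), e i))

/-- the sizes of the coefficients; the additive constants are arbitrary -/
def Sizes {m r : ℕ} (a : Fin (r + 1) → Fin (m + 1) → ℤ) (e : Fin (r + 1) → Fin r → ℤ)
    (d : Fin (r + 1) → ℕ) (H : ℝ) : Prop :=
  (∀ i (j : Fin m), |(a i j.succ : ℝ)| ≤ H) ∧ (∀ i l, |(e i l : ℝ)| ≤ H) ∧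
    ∀ i, 1 ≤ d i ∧ (d i : ℝ) ≤ H

theorem indep_scaled {m r : ℕ} {a : Fin (r + 1) → Fin (m + 1) → ℤ} {e : Fin (r + 1) → Fin r → ℤ}
    (h : Indep a e) (q : Fin (r + 1) → ℕ) (hq : ∀ i, 1 ≤ q i) (z : Fin (r + 1) → ℤ) :
    LinearIndependent ℤ (fun i => ((Fin.cons (z i) (fun j : Fin m => (q i : ℤ) * a i j.succ) :
      Fin (m + 1) → ℤ), fun l => (q i : ℤ) * e i l)) := by
  unfold Indep at h
  rw [Fintype.linearIndependent_iff] at h ⊢
  intro g hg i
  have h1 := h (fun i => g i * q i) (by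
    rw [Prod.ext_iff] at hg ⊢
    constructor
    · funext j
      have h2 := congrFun hg.1 j.succ
      simp only [Prod.fst_sum, Finset.sum_apply, Prod.smul_fst, Pi.smul_apply, Fin.cons_succ,
        smul_eq_mul, Prod.fst_zero, Pi.zero_apply] at h2 ⊢
      rw [← h2]
      exact Finset.sum_congr rfl fun i _ => by ring
    · funext l
      have h2 := congrFun hg.2 l
      simp only [Prod.snd_sum, Finset.sum_apply, Prod.smul_snd, Pi.smul_apply,
        smul_eq_mul, Prod.snd_zero, Pi.zero_apply] at h2 ⊢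
      rw [← h2]
      exact Finset.sum_congr rfl fun i _ => by ring) i
  rcases mul_eq_zero.1 h1 with h2 | h2
  · exact h2
  · exfalso
    have : q i = 0 := by exact_mod_cast h2
    have := hq i
    omega

/-- the joint measure -/
theorem joint_general {m : ℕ} (θ : Fin (m + 1) → ℝ) (hθ0 : θ 0 = 1) (μ c : ℝ) (hμ : 0 ≤ μ) (hc : 0 < c)
    (hθ : Meas θ μ c) (r : ℕ) (T : ℝ) (hT : 0 ≤ T) : ∃ K : ℝ, 0 ≤ K ∧ ∀ t : Fin r → ℝ, (∀ l, |t l| ≤ T) →
      ∀ H : ℝ, 1 ≤ H → ∀ (a : Fin (r + 1) → Fin (m + 1) → ℤ) (e : Fin (r + 1) → Fin r → ℤ)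
      (d : Fin (r + 1) → ℕ), Indep a e → Sizes a e d H →
      Joint (fun i => fval θ t (a i) (e i) (d i)) (μ + 1) (K * (1 + Real.log H)) := by
  obtain ⟨c', hc', hp⟩ := Pool.Agent.TH550.NRZ.product_ineq θ μ c hμ hc hθ r
  set K0 : ℝ := 1 + (∑ j, |θ j|) + r * T with hK0
  have hsum0 : 0 ≤ ∑ j, |θ j| := Finset.sum_nonneg fun j _ => abs_nonneg _
  have hK01 : 1 ≤ K0 := by
    rw [hK0]
    have : 0 ≤ (r : ℝ) * T := by positivity
    linarith
  have hlK0 : 0 ≤ Real.log K0 := Real.log_nonneg hK01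
  have hr : (0 : ℝ) < (r : ℝ) + 1 := by positivity
  refine ⟨|Real.log (((r : ℝ) + 1) / c')| + (μ + 1) * ((r : ℝ) + 1) * (Real.log K0 + 1),
    by positivity, ?_⟩
  intro t ht H hH a e d hind hsz q p hq
  set D : ℝ := (|Real.log (((r : ℝ) + 1) / c')| + (μ + 1) * ((r : ℝ) + 1) * (Real.log K0 + 1)) *
    (1 + Real.log H) with hD
  have hlH : 0 ≤ Real.log H := Real.log_nonneg hH
  have hH0 : 0 < H := by linarith
  have hD0 : 0 ≤ D := by positivity
  by_contra hcon
  push Not at hcon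
  set x : Fin (r + 1) → ℝ := fun i => fval θ t (a i) (e i) (d i) with hx
  set S : ℝ := Real.exp (-D) * ∏ j, (q j : ℝ) ^ (-(μ + 1)) with hS
  have hq1 : ∀ i, (1 : ℝ) ≤ q i := fun i => by exact_mod_cast hq i
  have hq0 : ∀ i, (0 : ℝ) < q i := fun i => by linarith [hq1 i]
  have hd1 : ∀ i, (1 : ℝ) ≤ d i := fun i => by exact_mod_cast (hsz.2.2 i).1
  have hprod0 : 0 < ∏ j, (q j : ℝ) ^ (-(μ + 1)) :=
    Finset.prod_pos fun j _ => Real.rpow_pos_of_pos (hq0 j) _
  have hprod1 : ∏ j, (q j : ℝ) ^ (-(μ + 1)) ≤ 1 := Finset.prod_le_one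
    (fun j _ => (Real.rpow_pos_of_pos (hq0 j) _).le)
    (fun j _ => Real.rpow_le_one_of_one_le_of_nonpos (hq1 j) (by linarith))
  have hS1 : S ≤ 1 := by
    have h1 : Real.exp (-D) ≤ 1 := Real.exp_le_one_iff.2 (by linarith)
    calc S ≤ 1 * 1 := mul_le_mul h1 hprod1 hprod0.le zero_le_one
      _ = 1 := one_mul 1
  have hS0 : 0 < S := by positivity
  set z : Fin (r + 1) → ℤ := fun i => q i * a i 0 - p i * d i with hz
  set aa : Fin (r + 1) → Fin (m + 1) → ℤ := fun i =>
    Fin.cons (z i) (fun j : Fin m => (q i : ℤ) * a i j.succ) with haa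
  set ee : Fin (r + 1) → Fin r → ℤ := fun i l => (q i : ℤ) * e i l with hee
  set h : Fin (r + 1) → ℝ := fun i => K0 * H * q i with hh
  have hL : ∀ i, (∑ j, (aa i j : ℝ) * θ j) + ∑ l, (ee i l : ℝ) * t l =
      q i * d i * (x i - (p i : ℝ) / q i) := by
    intro i
    have hdx : (d i : ℝ) * x i = (∑ j, (a i j : ℝ) * θ j) + ∑ l, (e i l : ℝ) * t l := by
      rw [hx]
      simp only [fval]
      have := hd1 i
      field_simp
    have e1 : (q i : ℝ) * d i * (x i - (p i : ℝ) / q i) = q i * (d i * x i) - p i * d i := by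
      have := (hq0 i).ne'
      field_simp
    rw [e1, hdx, Fin.sum_univ_succ, Fin.sum_univ_succ (f := fun j => (a i j : ℝ) * θ j), hθ0]
    simp only [haa, hee, hz, Fin.cons_zero, Fin.cons_succ]
    push_cast
    rw [mul_add, mul_add, Finset.mul_sum, Finset.mul_sum]
    have e2 : ∀ j : Fin m, (q i : ℝ) * ((a i j.succ : ℝ) * θ j.succ) =
        (q i : ℝ) * (a i j.succ : ℝ) * θ j.succ := fun j => by ring
    have e3 : ∀ l : Fin r, (q i : ℝ) * ((e i l : ℝ) * t l) = (q i : ℝ) * (e i l : ℝ) * t l :=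
      fun l => by ring
    rw [Finset.sum_congr rfl (fun j _ => e2 j), Finset.sum_congr rfl (fun l _ => e3 l)]
    ring
  have hLle : ∀ i, |(∑ j, (aa i j : ℝ) * θ j) + ∑ l, (ee i l : ℝ) * t l| ≤ q i * H * S := by
    intro i
    rw [hL i, abs_mul, abs_mul, abs_of_pos (hq0 i), abs_of_nonneg (by linarith [hd1 i] : (0 : ℝ) ≤ d i)]
    exact mul_le_mul (mul_le_mul_of_nonneg_left (hsz.2.2 i).2 (hq0 i).le) (hcon i).le (abs_nonneg _)
      (by positivity)
  have hh1 : ∀ i, 1 ≤ h i := fun i => by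
    rw [hh]
    have h1 : 1 ≤ K0 * H := by nlinarith
    nlinarith [hq1 i]
  have hee_le : ∀ i l, |(ee i l : ℝ)| ≤ q i * H := by
    intro i l
    rw [hee]
    push_cast
    rw [abs_mul, abs_of_pos (hq0 i)]
    exact mul_le_mul_of_nonneg_left (hsz.2.1 i l) (hq0 i).le
  have haa_le : ∀ i (j : Fin m), |(aa i j.succ : ℝ)| ≤ q i * H := by
    intro i j
    rw [haa]
    simp only [Fin.cons_succ]
    push_cast
    rw [abs_mul, abs_of_pos (hq0 i)]
    exact mul_le_mul_of_nonneg_left (hsz.1 i j) (hq0 i).le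
  have hqH : ∀ i, (q i : ℝ) * H ≤ h i := by
    intro i
    rw [hh]
    have : 0 ≤ (q i : ℝ) * H := by have := hq0 i; positivity
    nlinarith
  have hea : ∀ i l, |(ee i l : ℝ)| ≤ h i := fun i l => (hee_le i l).trans (hqH i)
  have haal : ∀ i j, |(aa i j : ℝ)| ≤ h i := by
    intro i j
    refine Fin.cases ?_ (fun j => (haa_le i j).trans (hqH i)) j
    have e0 : (aa i 0 : ℝ) = ((∑ j, (aa i j : ℝ) * θ j) + ∑ l, (ee i l : ℝ) * t l) -
        ((∑ j : Fin m, (aa i j.succ : ℝ) * θ j.succ) + ∑ l, (ee i l : ℝ) * t l) := by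
      rw [Fin.sum_univ_succ, hθ0]
      ring
    rw [e0]
    refine (abs_sub _ _).trans ?_
    have h1 : |(∑ j : Fin m, (aa i j.succ : ℝ) * θ j.succ) + ∑ l, (ee i l : ℝ) * t l| ≤
        q i * H * ((∑ j, |θ j|) + r * T) := by
      refine (abs_add_le _ _).trans ?_
      rw [mul_add]
      apply add_le_add
      · refine (Finset.abs_sum_le_sum_abs _ _).trans ?_
        have h2 : ∑ j : Fin m, |θ j.succ| ≤ ∑ j, |θ j| := by
          rw [Fin.sum_univ_succ (f := fun j => |θ j|)]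
          linarith [abs_nonneg (θ 0)]
        calc ∑ j : Fin m, |(aa i j.succ : ℝ) * θ j.succ| ≤ ∑ j : Fin m, q i * H * |θ j.succ| := by
              apply Finset.sum_le_sum
              intro j _
              rw [abs_mul]
              exact mul_le_mul_of_nonneg_right (haa_le i j) (abs_nonneg _)
          _ = q i * H * ∑ j : Fin m, |θ j.succ| := by rw [Finset.mul_sum]
          _ ≤ _ := mul_le_mul_of_nonneg_left h2 (by have := hq0 i; positivity)
      · refine (Finset.abs_sum_le_sum_abs _ _).trans ?_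
        calc ∑ l : Fin r, |(ee i l : ℝ) * t l| ≤ ∑ _l : Fin r, q i * H * T := by
              apply Finset.sum_le_sum
              intro l _
              rw [abs_mul]
              exact mul_le_mul (hee_le i l) (ht l) (abs_nonneg _) (by have := hq0 i; positivity)
          _ = _ := by
              rw [Finset.sum_const, Finset.card_univ, Fintype.card_fin, nsmul_eq_mul]
              ring
    have h2 := hLle i
    have h3 : (q i : ℝ) * H * S ≤ q i * H := by
      have : 0 ≤ (q i : ℝ) * H := by have := hq0 i; positivity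
      nlinarith
    rw [hh]
    have e4 : K0 * H * q i = q i * H + q i * H * ((∑ j, |θ j|) + r * T) := by
      rw [hK0]
      ring
    change _ ≤ K0 * H * q i
    rw [e4]
    linarith
  have hfin := hp t aa ee (indep_scaled hind q hq z) h hh1 haal hea
  have hup : ∑ i, |(∑ j, (aa i j : ℝ) * θ j) + ∑ l, (ee i l : ℝ) * t l| / h i <
      ((r : ℝ) + 1) * S := by
    have h1 : ∀ i ∈ (Finset.univ : Finset (Fin (r + 1))),
        |(∑ j, (aa i j : ℝ) * θ j) + ∑ l, (ee i l : ℝ) * t l| / h i < S := by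
      intro i _
      have hhi : 0 < h i := by linarith [hh1 i]
      rw [div_lt_iff₀ hhi, hL i, abs_mul, abs_mul, abs_of_pos (hq0 i),
        abs_of_nonneg (by linarith [hd1 i] : (0 : ℝ) ≤ d i)]
      have h2 : (q i : ℝ) * d i * |x i - (p i : ℝ) / q i| < q i * d i * S :=
        mul_lt_mul_of_pos_left (hcon i) (mul_pos (hq0 i) (by linarith [hd1 i]))
      have h3 : (q i : ℝ) * d i ≤ h i :=
        (mul_le_mul_of_nonneg_left (hsz.2.2 i).2 (hq0 i).le).trans (hqH i)
      nlinarith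
    have h2 := Finset.sum_lt_sum_of_nonempty Finset.univ_nonempty h1
    rw [Finset.sum_const, Finset.card_univ, Fintype.card_fin, nsmul_eq_mul] at h2
    push_cast at h2
    exact h2
  have hlow : ((r : ℝ) + 1) * S ≤ c' * ∏ i, h i ^ (-(μ + 1)) := by
    have e5 : ∏ i, h i ^ (-(μ + 1)) =
        ((K0 * H) ^ (-(μ + 1))) ^ (r + 1) * ∏ i, (q i : ℝ) ^ (-(μ + 1)) := by
      rw [hh]
      have e6 : ∀ i ∈ (Finset.univ : Finset (Fin (r + 1))), (K0 * H * q i) ^ (-(μ + 1)) =
          (K0 * H) ^ (-(μ + 1)) * (q i : ℝ) ^ (-(μ + 1)) := fun i _ =>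
        Real.mul_rpow (by positivity) (hq0 i).le
      rw [Finset.prod_congr rfl e6, Finset.prod_mul_distrib, Finset.prod_const, Finset.card_univ,
        Fintype.card_fin]
    rw [e5, hS, ← mul_assoc, ← mul_assoc]
    apply mul_le_mul_of_nonneg_right _ hprod0.le
    have hKH : 0 < K0 * H := by positivity
    have hpw : 0 < ((K0 * H) ^ (-(μ + 1))) ^ (r + 1) := by positivity
    rw [← Real.log_le_log_iff (by positivity) (by positivity), Real.log_mul hr.ne' (Real.exp_pos _).ne',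
      Real.log_exp, Real.log_mul hc'.ne' hpw.ne', Real.log_pow, Real.log_rpow hKH,
      Real.log_mul (by positivity) hH0.ne']
    have h7 : Real.log ((r : ℝ) + 1) - Real.log c' ≤ |Real.log (((r : ℝ) + 1) / c')| := by
      rw [← Real.log_div hr.ne' hc'.ne']
      exact le_abs_self _
    have h8 : |Real.log (((r : ℝ) + 1) / c')| + (μ + 1) * ((r : ℝ) + 1) * (Real.log K0 + Real.log H) ≤ D := by
      rw [hD]
      have h9 := abs_nonneg (Real.log (((r : ℝ) + 1) / c'))
      have h10 : 0 ≤ (μ + 1) * ((r : ℝ) + 1) := by positivity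
      nlinarith [mul_nonneg h9 hlH, mul_nonneg h10 hlH, mul_nonneg (mul_nonneg h10 hlK0) hlH]
    push_cast
    nlinarith
  linarith

/-- the bound for the errors of several machines -/
theorem general_bound {m : ℕ} (θ : Fin (m + 1) → ℝ) (hθ0 : θ 0 = 1) (μ c : ℝ) (hμ : 0 < μ) (hc : 0 < c)
    (hθ : Meas θ μ c) (r : ℕ) (T : ℝ) (hT : 0 ≤ T) : ∃ C : ℝ, ∀ t : Fin r → ℝ, (∀ l, |t l| ≤ T) →
      ∀ H : ℝ, 1 ≤ H → ∀ (a : Fin (r + 1) → Fin (m + 1) → ℤ) (e : Fin (r + 1) → Fin r → ℤ)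
      (d : Fin (r + 1) → ℕ), Indep a e → Sizes a e d H → ∀ b : Fin (r + 1) → ℕ, (∀ i, 2 ≤ b i) →
      ∀ (Q : Fin (r + 1) → Type) [∀ i, Fintype (Q i)] (δ : ∀ i, Q i → ℤ → Q i) (g : ∀ i, Q i → ℤ)
      (q₀ : ∀ i, Q i) (N : Fin (r + 1) → ℕ) (Λ : ℝ), 0 < Λ → (∀ i, Λ ≤ N i * Real.log (b i)) →
      (Real.log Λ - Real.log ((∑ i, (Fintype.card (Q i) : ℝ) * Real.log (b i)) + Real.log H)) /
        Real.log (((r : ℝ) + 1) * (μ + 1)) - C ≤
        ((∑ i, err (δ i) (g i) (dg (b i) (fval θ t (a i) (e i) (d i))) (q₀ i) 0 (N i) : ℕ) : ℝ) := by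
  obtain ⟨K, hK, h⟩ := joint_general θ hθ0 μ c hμ.le hc hθ r T hT
  have hl2 : 0 < Real.log 2 := Real.log_pos one_lt_two
  have hr0 : (0 : ℝ) ≤ r := Nat.cast_nonneg r
  have hρ : 1 < ((r : ℝ) + 1) * (μ + 1) := by nlinarith
  have hlρ : 0 < Real.log (((r : ℝ) + 1) * (μ + 1)) := Real.log_pos hρ
  refine ⟨1 + Real.log ((μ + 1 + 2) / (((r : ℝ) + 1) * (μ + 1) - 1)) / Real.log (((r : ℝ) + 1) * (μ + 1)) +
    Real.log (1 + (K / Real.log 2 + K)) / Real.log (((r : ℝ) + 1) * (μ + 1)), ?_⟩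
  intro t ht H hH a e d hind hsz b hb Q _ δ g q₀ N Λ hΛ hN
  have hlH : 0 ≤ Real.log H := Real.log_nonneg hH
  have hcard : ((Fintype.card (Fin (r + 1)) : ℕ) : ℝ) = (r : ℝ) + 1 := by
    rw [Fintype.card_fin]
    push_cast
    rfl
  have h1 := main (fun i => fval θ t (a i) (e i) (d i)) b δ g q₀ hb (κ := μ + 1)
    (D := K * (1 + Real.log H)) (by linarith) (by positivity) (by rw [hcard]; exact hρ)
    (h t ht H hH a e d hind hsz) N hΛ hN
  rw [hcard] at h1
  have hZ2 : Real.log 2 ≤ siz b Q := by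
    have h2 := (siz_ge b hb q₀ 0).1
    have h3 : Real.log 2 ≤ Real.log (b 0) := Real.log_le_log (by norm_num) (by exact_mod_cast hb 0)
    linarith
  set Z : ℝ := siz b Q with hZ
  change (Real.log Λ - Real.log (Z + Real.log H)) / _ - _ ≤ _
  have hZH : 0 < Z + Real.log H := by linarith
  have h2 : Real.log (K * (1 + Real.log H) + Z) ≤ Real.log (Z + Real.log H) +
      Real.log (1 + (K / Real.log 2 + K)) := by
    have e1 : K * (1 + Real.log H) + Z ≤ K * (1 + Real.log H) + (Z + Real.log H) := by linarith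
    have e0 : 0 ≤ K * (1 + Real.log H) := by positivity
    refine (Real.log_le_log (by linarith) e1).trans ?_
    rw [← Real.log_mul hZH.ne' (by positivity)]
    apply Real.log_le_log (by linarith)
    have e3 : K ≤ K / Real.log 2 * (Z + Real.log H) := by
      calc K = K / Real.log 2 * Real.log 2 := by field_simp
        _ ≤ _ := mul_le_mul_of_nonneg_left (by linarith) (by positivity)
    nlinarith
  have h3 : (Real.log Λ - (Real.log (Z + Real.log H) +
      Real.log (1 + (K / Real.log 2 + K)))) / Real.log (((r : ℝ) + 1) * (μ + 1)) ≤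
      (Real.log Λ - Real.log (K * (1 + Real.log H) + Z)) /
        Real.log (((r : ℝ) + 1) * (μ + 1)) := div_le_div_of_nonneg_right (by linarith) hlρ.le
  have e4 : (Real.log Λ - (Real.log (Z + Real.log H) +
      Real.log (1 + (K / Real.log 2 + K)))) / Real.log (((r : ℝ) + 1) * (μ + 1)) =
      (Real.log Λ - Real.log (Z + Real.log H)) / Real.log (((r : ℝ) + 1) * (μ + 1)) -
      Real.log (1 + (K / Real.log 2 + K)) / Real.log (((r : ℝ) + 1) * (μ + 1)) := by ring
  linarith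

end Pool.Agent.V11015.FS
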