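import Pool.Agent.V11015.FS.Mult

/-! Linear polynomials in an arbitrary real number whose coefficients are polynomials in a number with a
transcendence measure: errors of machines. -/

set_option autoImplicit false

namespace Pool.Agent.V11015.FS

open Finset Polynomial Pool.Agent.V60.FSP

theorem coeff_mul_le {n : ℕ} {H : ℝ} (hH : 0 ≤ H) {P Q : ℤ[X]} (hP : Bdd n H P) (hQ : Bdd n H Q) (j : ℕ) :
    |((P * Q).coeff j : ℝ)| ≤ (2 * (n : ℝ) + 1) * H ^ 2 := by
  have hn : (0 : ℝ) ≤ n := Nat.cast_nonneg n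
  rcases le_or_gt j (2 * n) with hj | hj
  · rw [coeff_mul]
    push_cast
    refine (Finset.abs_sum_le_sum_abs _ _).trans ?_
    have h1 : ∀ x ∈ antidiagonal j, |(P.coeff x.1 : ℝ) * (Q.coeff x.2 : ℝ)| ≤ H ^ 2 := by
      intro x _
      rw [abs_mul, pow_two]
      exact mul_le_mul (hP.2 _) (hQ.2 _) (abs_nonneg _) hH
    refine (Finset.sum_le_sum h1).trans ?_
    rw [Finset.sum_const, Finset.Nat.card_antidiagonal, nsmul_eq_mul]
    have h2 : ((j + 1 : ℕ) : ℝ) ≤ 2 * (n : ℝ) + 1 := by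
      have : ((j + 1 : ℕ) : ℝ) ≤ ((2 * n + 1 : ℕ) : ℝ) := by exact_mod_cast Nat.succ_le_succ hj
      push_cast at this ⊢
      exact this
    exact mul_le_mul_of_nonneg_right h2 (by positivity)
  · rw [coeff_eq_zero_of_natDegree_lt]
    · rw [Int.cast_zero, abs_zero]
      positivity
    · refine lt_of_le_of_lt (natDegree_mul_le.trans ?_) hj
      have := hP.1
      have := hQ.1
      omega

/-- the core inequality with a common multiple `m` of the denominators -/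
theorem lin_core {θ : ℝ} {n : ℕ} {μ c : ℝ} (hμ : 0 ≤ μ) (hc : 0 < c) (hθ : PMeas θ (2 * n) μ c) (T : ℝ)
    (hT : 0 ≤ T) : ∃ K : ℝ, 0 ≤ K ∧ ∀ t : ℝ, |t| ≤ T → ∀ H : ℝ, 1 ≤ H →
    ∀ A P A' Q : ℤ[X], Bdd n H A → Bdd n H P → Bdd n H A' → Bdd n H Q →
    (∀ m k l : ℤ, m ≠ 0 → (C m * A + C k) * Q ≠ (C m * A' + C l) * P) →
    ∀ d d' : ℕ, 1 ≤ d → 1 ≤ d' → (d : ℝ) ≤ H → (d' : ℝ) ≤ H →
    ∀ (q q' w w' m : ℕ) (p p' : ℤ), 1 ≤ q → 1 ≤ q' → 1 ≤ w → 1 ≤ w' → m = q * w → m = q' * w' →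
    ∀ S : ℝ, |(aeval θ A + t * aeval θ P) / d - (p : ℝ) / q| ≤ S →
    |(aeval θ A' + t * aeval θ Q) / d' - (p' : ℝ) / q'| ≤ S →
    Real.exp (-(K * (1 + Real.log H))) * (m : ℝ) ^ (-(μ + 1)) ≤ S := by
  set Θ : ℝ := pw θ n with hΘ
  have hΘ1 : 1 ≤ Θ := pw_one θ n
  have hn0 : (0 : ℝ) ≤ n := Nat.cast_nonneg n
  set B : ℝ := 2 * ((1 + T) * Θ + 1) with hB
  set B1 : ℝ := B + 2 * (2 * (n : ℝ) + 1) with hB1d
  have hTΘ : 0 ≤ (1 + T) * Θ := by positivity
  have hB1 : 1 ≤ B := by rw [hB]; linarith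
  have hB11 : 1 ≤ B1 := by rw [hB1d]; linarith
  set c1 : ℝ := c / (2 * Θ * B1 ^ μ) with hc1
  have hc1' : 0 < c1 := by positivity
  set c0 : ℝ := min 1 c1 with hc0
  have hc0' : 0 < c0 := lt_min one_pos hc1'
  have hc01 : c0 ≤ 1 := min_le_left _ _
  have hlc : Real.log c0 ≤ 0 := Real.log_nonpos hc0'.le hc01
  refine ⟨(3 * μ + 2) - Real.log c0, by linarith, ?_⟩
  intro t htT H hH A P A' Q hA hP hA' hQ hind d d' hd hd' hdH hdH' q q' w w' m p p' hq hq' hw hw' hm hm'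
    S h1 h2
  have hH0 : 0 < H := by linarith
  have hlH : 0 ≤ Real.log H := Real.log_nonneg hH
  have hqR : (1 : ℝ) ≤ q := by exact_mod_cast hq
  have hqR' : (1 : ℝ) ≤ q' := by exact_mod_cast hq'
  have hwR : (1 : ℝ) ≤ w := by exact_mod_cast hw
  have hwR' : (1 : ℝ) ≤ w' := by exact_mod_cast hw'
  have hdR : (1 : ℝ) ≤ d := by exact_mod_cast hd
  have hdR' : (1 : ℝ) ≤ d' := by exact_mod_cast hd'
  have hmR : (m : ℝ) = q * w := by exact_mod_cast hm
  have hmR' : (m : ℝ) = q' * w' := by exact_mod_cast hm'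
  have hm1 : (1 : ℝ) ≤ m := by rw [hmR]; nlinarith
  have hm0 : (0 : ℝ) < m := by linarith
  have hS0 : 0 ≤ S := (abs_nonneg _).trans h1
  -- the left side
  have hleft : Real.exp (-(((3 * μ + 2) - Real.log c0) * (1 + Real.log H))) * (m : ℝ) ^ (-(μ + 1)) ≤
      c0 * H ^ (-(3 * μ + 2)) * (m : ℝ) ^ (-(μ + 1)) := by
    apply mul_le_mul_of_nonneg_right _ (by positivity)
    rw [← Real.log_le_log_iff (Real.exp_pos _) (by positivity), Real.log_exp,
      Real.log_mul hc0'.ne' (by positivity), Real.log_rpow hH0]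
    nlinarith [mul_nonneg (neg_nonneg.2 hlc) hlH]
  refine hleft.trans ?_
  have hmm : (m : ℝ) ^ (-(μ + 1)) ≤ 1 := Real.rpow_le_one_of_one_le_of_nonpos hm1 (by linarith)
  have hHH : H ^ (-(3 * μ + 2)) ≤ 1 := Real.rpow_le_one_of_one_le_of_nonpos hH (by linarith)
  have hmm0 : 0 ≤ (m : ℝ) ^ (-(μ + 1)) := by positivity
  have hHH0 : 0 ≤ H ^ (-(3 * μ + 2)) := by positivity
  rcases lt_or_ge 1 S with hS1 | hS1
  · have h3 : c0 * H ^ (-(3 * μ + 2)) * (m : ℝ) ^ (-(μ + 1)) ≤ 1 := by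
      have h4 : c0 * H ^ (-(3 * μ + 2)) ≤ 1 := mul_le_one₀ hc01 hHH0 hHH
      exact mul_le_one₀ h4 hmm0 hmm
    linarith
  have vA := val_le (θ := θ) hH0.le hA
  have vA' := val_le (θ := θ) hH0.le hA'
  have vP := val_le (θ := θ) hH0.le hP
  have vQ := val_le (θ := θ) hH0.le hQ
  rw [← hΘ] at vA vA' vP vQ
  set x : ℝ := (aeval θ A + t * aeval θ P) / d with hx
  set y : ℝ := (aeval θ A' + t * aeval θ Q) / d' with hy
  have hxB : |x| ≤ (1 + T) * Θ * H := by
    rw [hx, abs_div, Nat.abs_cast, div_le_iff₀ (by linarith)]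
    have h3 : |t| * |aeval θ P| ≤ T * (H * Θ) := mul_le_mul htT vP (abs_nonneg _) hT
    have h5 := abs_add_le (aeval θ A) (t * aeval θ P)
    rw [abs_mul] at h5
    have h4 : 0 ≤ (1 + T) * Θ * H := by positivity
    nlinarith
  have hyB : |y| ≤ (1 + T) * Θ * H := by
    rw [hy, abs_div, Nat.abs_cast, div_le_iff₀ (by linarith)]
    have h3 : |t| * |aeval θ Q| ≤ T * (H * Θ) := mul_le_mul htT vQ (abs_nonneg _) hT
    have h5 := abs_add_le (aeval θ A') (t * aeval θ Q)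
    rw [abs_mul] at h5
    have h4 : 0 ≤ (1 + T) * Θ * H := by positivity
    nlinarith
  -- the integers `p w`, `p' w'`
  have hpB : |(p : ℝ)| * w ≤ B / 2 * H * m := by
    have h3 : |(p : ℝ) / q| ≤ (1 + T) * Θ * H + 1 := by
      have h4 : |(p : ℝ) / q| ≤ |x| + |x - (p : ℝ) / q| := by
        have := abs_sub_abs_le_abs_sub ((p : ℝ) / q) x
        rw [abs_sub_comm] at this
        linarith
      linarith
    rw [abs_div, Nat.abs_cast, div_le_iff₀ (by linarith)] at h3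
    have h5 : |(p : ℝ)| * w ≤ ((1 + T) * Θ * H + 1) * m := by
      rw [hmR]
      calc |(p : ℝ)| * w ≤ (((1 + T) * Θ * H + 1) * q) * w :=
            mul_le_mul_of_nonneg_right h3 (by linarith)
        _ = ((1 + T) * Θ * H + 1) * (q * w) := by ring
    refine h5.trans ?_
    rw [hB]
    have h6 : (1 + T) * Θ * H + 1 ≤ ((1 + T) * Θ + 1) * H := by nlinarith
    calc ((1 + T) * Θ * H + 1) * m ≤ (((1 + T) * Θ + 1) * H) * m := mul_le_mul_of_nonneg_right h6 hm0.le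
      _ = _ := by ring
  have hpB' : |(p' : ℝ)| * w' ≤ B / 2 * H * m := by
    have h3 : |(p' : ℝ) / q'| ≤ (1 + T) * Θ * H + 1 := by
      have h4 : |(p' : ℝ) / q'| ≤ |y| + |y - (p' : ℝ) / q'| := by
        have := abs_sub_abs_le_abs_sub ((p' : ℝ) / q') y
        rw [abs_sub_comm] at this
        linarith
      linarith
    rw [abs_div, Nat.abs_cast, div_le_iff₀ (by linarith)] at h3
    have h5 : |(p' : ℝ)| * w' ≤ ((1 + T) * Θ * H + 1) * m := by
      rw [hmR']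
      calc |(p' : ℝ)| * w' ≤ (((1 + T) * Θ * H + 1) * q') * w' :=
            mul_le_mul_of_nonneg_right h3 (by linarith)
        _ = ((1 + T) * Θ * H + 1) * (q' * w') := by ring
    refine h5.trans ?_
    rw [hB]
    have h6 : (1 + T) * Θ * H + 1 ≤ ((1 + T) * Θ + 1) * H := by nlinarith
    calc ((1 + T) * Θ * H + 1) * m ≤ (((1 + T) * Θ + 1) * H) * m := mul_le_mul_of_nonneg_right h6 hm0.le
      _ = _ := by ring
  -- the polynomial
  set R : ℤ[X] := C (d * w * p) * Q - C (d' * w' * p') * P - C (m : ℤ) * (A * Q - A' * P) with hR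
  have hRdeg : R.natDegree ≤ 2 * n := by
    rw [hR]
    refine (natDegree_sub_le _ _).trans (max_le ((natDegree_sub_le _ _).trans (max_le ?_ ?_)) ?_)
    · exact ((natDegree_C_mul_le _ _).trans hQ.1).trans (by omega)
    · exact ((natDegree_C_mul_le _ _).trans hP.1).trans (by omega)
    · refine (natDegree_C_mul_le _ _).trans ((natDegree_sub_le _ _).trans (max_le ?_ ?_))
      · refine natDegree_mul_le.trans ?_
        have := hA.1
        have := hQ.1
        omega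
      · refine natDegree_mul_le.trans ?_
        have := hA'.1
        have := hP.1
        omega
  have hRc : ∀ j, |(R.coeff j : ℝ)| ≤ B1 * H ^ 3 * m := by
    intro j
    rw [hR, coeff_sub, coeff_sub, coeff_C_mul, coeff_C_mul, coeff_C_mul, coeff_sub]
    push_cast
    have a1 : |(d : ℝ) * w * p * (Q.coeff j : ℝ)| ≤ B / 2 * H ^ 3 * m := by
      rw [abs_mul, abs_mul, abs_mul, Nat.abs_cast, Nat.abs_cast]
      calc (d : ℝ) * w * |(p : ℝ)| * |(Q.coeff j : ℝ)| = (|(p : ℝ)| * w) * (d * |(Q.coeff j : ℝ)|) := by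
            ring
        _ ≤ (B / 2 * H * m) * (H * H) :=
            mul_le_mul hpB (mul_le_mul hdH (hQ.2 j) (abs_nonneg _) hH0.le) (by positivity)
              (by positivity)
        _ = _ := by ring
    have a2 : |(d' : ℝ) * w' * p' * (P.coeff j : ℝ)| ≤ B / 2 * H ^ 3 * m := by
      rw [abs_mul, abs_mul, abs_mul, Nat.abs_cast, Nat.abs_cast]
      calc (d' : ℝ) * w' * |(p' : ℝ)| * |(P.coeff j : ℝ)| =
            (|(p' : ℝ)| * w') * (d' * |(P.coeff j : ℝ)|) := by ring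
        _ ≤ (B / 2 * H * m) * (H * H) :=
            mul_le_mul hpB' (mul_le_mul hdH' (hP.2 j) (abs_nonneg _) hH0.le) (by positivity)
              (by positivity)
        _ = _ := by ring
    have b1 := coeff_mul_le hH0.le hA hQ j
    have b2 := coeff_mul_le hH0.le hA' hP j
    have hH23 : H ^ 2 ≤ H ^ 3 := pow_le_pow_right₀ hH (by norm_num)
    have a4 : |(m : ℝ) * (((A * Q).coeff j : ℝ) - ((A' * P).coeff j : ℝ))| ≤
        2 * (2 * (n : ℝ) + 1) * H ^ 3 * m := by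
      rw [abs_mul, Nat.abs_cast]
      have b3 := abs_sub ((A * Q).coeff j : ℝ) ((A' * P).coeff j : ℝ)
      have b4 : |((A * Q).coeff j : ℝ) - ((A' * P).coeff j : ℝ)| ≤ 2 * (2 * (n : ℝ) + 1) * H ^ 3 := by
        have b5 : (2 * (n : ℝ) + 1) * H ^ 2 ≤ (2 * (n : ℝ) + 1) * H ^ 3 :=
          mul_le_mul_of_nonneg_left hH23 (by positivity)
        linarith
      calc (m : ℝ) * |((A * Q).coeff j : ℝ) - ((A' * P).coeff j : ℝ)|
          ≤ m * (2 * (2 * (n : ℝ) + 1) * H ^ 3) := mul_le_mul_of_nonneg_left b4 hm0.le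
        _ = _ := by ring
    have a3 := abs_sub ((d : ℝ) * w * p * (Q.coeff j : ℝ)) ((d' : ℝ) * w' * p' * (P.coeff j : ℝ))
    have a5 := abs_sub ((d : ℝ) * w * p * (Q.coeff j : ℝ) - (d' : ℝ) * w' * p' * (P.coeff j : ℝ))
      ((m : ℝ) * (((A * Q).coeff j : ℝ) - ((A' * P).coeff j : ℝ)))
    have e : B1 * H ^ 3 * m = B / 2 * H ^ 3 * m + B / 2 * H ^ 3 * m +
        2 * (2 * (n : ℝ) + 1) * H ^ 3 * m := by
      rw [hB1d]
      ring
    rw [e]
    linarith
  have hRv : |aeval θ R| ≤ 2 * H ^ 2 * Θ * m * S := by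
    have e0 : aeval θ R = m * (d' * aeval θ P * (y - (p' : ℝ) / q')) -
        m * (d * aeval θ Q * (x - (p : ℝ) / q)) := by
      have e1 : (d : ℝ) * x = aeval θ A + t * aeval θ P := by rw [hx]; field_simp
      have e2 : (d' : ℝ) * y = aeval θ A' + t * aeval θ Q := by rw [hy]; field_simp
      have e3 : (m : ℝ) * ((p : ℝ) / q) = w * p := by rw [hmR]; field_simp
      have e4 : (m : ℝ) * ((p' : ℝ) / q') = w' * p' := by rw [hmR']; field_simp
      have e5 : aeval θ R = d * (w * p) * aeval θ Q - d' * (w' * p') * aeval θ P -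
          m * (aeval θ A * aeval θ Q - aeval θ A' * aeval θ P) := by
        have e6 : ∀ (z : ℤ) (F : ℤ[X]), aeval θ (C z * F) = (z : ℝ) * aeval θ F := by
          intro z F
          rw [map_mul, aeval_C]
          simp
        rw [hR, map_sub, map_sub, e6, e6, e6, map_sub, map_mul, map_mul]
        push_cast
        ring
      rw [e5, ← e3, ← e4]
      linear_combination (m : ℝ) * aeval θ Q * e1 - (m : ℝ) * aeval θ P * e2
    rw [e0]
    have a1 : |(m : ℝ) * (d' * aeval θ P * (y - (p' : ℝ) / q'))| ≤ m * (H * (H * Θ) * S) := by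
      rw [abs_mul, abs_mul, abs_mul, Nat.abs_cast, Nat.abs_cast]
      refine mul_le_mul_of_nonneg_left ?_ hm0.le
      exact mul_le_mul (mul_le_mul hdH' vP (abs_nonneg _) hH0.le) h2 (abs_nonneg _) (by positivity)
    have a2 : |(m : ℝ) * (d * aeval θ Q * (x - (p : ℝ) / q))| ≤ m * (H * (H * Θ) * S) := by
      rw [abs_mul, abs_mul, abs_mul, Nat.abs_cast, Nat.abs_cast]
      refine mul_le_mul_of_nonneg_left ?_ hm0.le
      exact mul_le_mul (mul_le_mul hdH vQ (abs_nonneg _) hH0.le) h1 (abs_nonneg _) (by positivity)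
    have a3 := abs_sub ((m : ℝ) * (d' * aeval θ P * (y - (p' : ℝ) / q')))
      ((m : ℝ) * (d * aeval θ Q * (x - (p : ℝ) / q)))
    nlinarith
  have hR0 : R ≠ 0 := by
    intro h0
    apply hind m (-(d * w * p)) (-(d' * w' * p')) (by
      have : 1 ≤ m := by exact_mod_cast hm1
      omega)
    have h4 : C (d * w * p : ℤ) * Q - C (d' * w' * p' : ℤ) * P - C (m : ℤ) * (A * Q - A' * P) = 0 := h0
    rw [C_neg, C_neg]
    linear_combination -h4
  have hBm : 1 ≤ B1 * H ^ 3 * m := by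
    have h3 : (1 : ℝ) ≤ H ^ 3 := one_le_pow₀ hH
    have h4 : 1 ≤ B1 * H ^ 3 := one_le_mul_of_one_le_of_one_le hB11 h3
    exact one_le_mul_of_one_le_of_one_le h4 hm1
  have h3 := hθ R hR0 hRdeg (B1 * H ^ 3 * m) hBm hRc
  have h4 : c ≤ (B1 * H ^ 3 * m) ^ μ * (2 * H ^ 2 * Θ * m * S) :=
    h3.trans (mul_le_mul_of_nonneg_left hRv (by positivity))
  have h5 : (B1 * H ^ 3 * (m : ℝ)) ^ μ = B1 ^ μ * H ^ (3 * μ) * (m : ℝ) ^ μ := by
    rw [Real.mul_rpow (by positivity) hm0.le, Real.mul_rpow (by positivity) (by positivity),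
      ← Real.rpow_natCast H 3, ← Real.rpow_mul hH0.le]
    norm_num
  rw [h5] at h4
  have h6 : c1 ≤ H ^ (3 * μ + 2) * (m : ℝ) ^ (μ + 1) * S := by
    rw [hc1, div_le_iff₀ (by positivity), Real.rpow_add hH0, Real.rpow_add hm0, Real.rpow_one]
    have e1 : H ^ (2 : ℝ) = H ^ 2 := by
      rw [← Real.rpow_natCast]
      norm_num
    rw [e1]
    calc c ≤ _ := h4
      _ = _ := by ring
  have hc0c1 : c0 ≤ c1 := min_le_right _ _
  have e1 : H ^ (-(3 * μ + 2)) * H ^ (3 * μ + 2) = 1 := by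
    rw [← Real.rpow_add hH0, neg_add_cancel, Real.rpow_zero]
  have e2 : (m : ℝ) ^ (-(μ + 1)) * (m : ℝ) ^ (μ + 1) = 1 := by
    rw [← Real.rpow_add hm0, neg_add_cancel, Real.rpow_zero]
  calc c0 * H ^ (-(3 * μ + 2)) * (m : ℝ) ^ (-(μ + 1))
      = c0 * (H ^ (-(3 * μ + 2)) * (m : ℝ) ^ (-(μ + 1))) := by ring
    _ ≤ (H ^ (3 * μ + 2) * (m : ℝ) ^ (μ + 1) * S) * (H ^ (-(3 * μ + 2)) * (m : ℝ) ^ (-(μ + 1))) :=
        mul_le_mul_of_nonneg_right (hc0c1.trans h6) (by positivity)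
    _ = (H ^ (-(3 * μ + 2)) * H ^ (3 * μ + 2)) * ((m : ℝ) ^ (-(μ + 1)) * (m : ℝ) ^ (μ + 1)) * S := by
        ring
    _ = S := by rw [e1, e2]; ring

end Pool.Agent.V11015.FS
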