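import Pool.Agent.V11015.FS.TwoForms

/-! The numbers `t + e`, `t - e`, `t e`, `t / e`. -/

set_option autoImplicit false

namespace Pool.Agent.V11015.FS

open Finset Pool.Agent.V60.FSP

/-- two numbers with a joint measure: two machines, own bases -/
theorem two_of_sum (κ c : ℝ) (hκ : 1 < 2 * κ) (hc : 0 < c) : ∃ C : ℝ, 0 ≤ C ∧ ∀ x y : ℝ,
    (∀ (p r : ℤ) (q s : ℕ), 0 < q → 0 < s →
      c * ((q : ℝ) * s) ^ (-κ) ≤ |x - (p : ℝ) / q| + |y - (r : ℝ) / s|) →
    ∀ b d : ℕ, 2 ≤ b → 2 ≤ d →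
    ∀ (Q Q' : Type) [Fintype Q] [Fintype Q'] (δ : Q → ℤ → Q)
    (g : Q → ℤ) (q₀ : Q) (δ' : Q' → ℤ → Q') (g' : Q' → ℤ) (q₀' : Q') (N N' : ℕ), 1 ≤ N → 1 ≤ N' →
    (Real.log (min (N * Real.log b) (N' * Real.log d)) -
      Real.log (Fintype.card Q * Real.log b + Fintype.card Q' * Real.log d)) /
      Real.log (2 * κ) - C ≤
      (err δ g (dg b x) q₀ 0 N : ℝ) + err δ' g' (dg d y) q₀' 0 N' := by
  have hl2 : 0 < Real.log 2 := Real.log_pos one_lt_two
  have hl4 : 0 < Real.log (2 * κ) := Real.log_pos hκ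
  set D : ℝ := max 0 (-Real.log (c / 2)) with hD
  have hD0 : 0 ≤ D := le_max_left _ _
  refine ⟨|1 + Real.log ((κ + 2) / (2 * κ - 1)) / Real.log (2 * κ)| +
    Real.log (1 + D / Real.log 2) / Real.log (2 * κ), ?_, ?_⟩
  · have : 0 ≤ Real.log (1 + D / Real.log 2) := Real.log_nonneg (by
      have : 0 ≤ D / Real.log 2 := by positivity
      linarith)
    positivity
  intro x y hxy b d hb hd Q Q' _ _ δ g q₀ δ' g' q₀' N N' hN hN'
  have hlb := log_base_pos hb
  have hld := log_base_pos hd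
  have hN1 : (1 : ℝ) ≤ N := by exact_mod_cast hN
  have hN1' : (1 : ℝ) ≤ N' := by exact_mod_cast hN'
  have ht : 0 < min (N * Real.log b) (N' * Real.log d) := lt_min (by positivity) (by positivity)
  have h1 := main_two (x := x) (y := y) (κ := κ) hκ (D := D) hD0 (fun q q' p p' hq hq' S h1 h2 => by
    have h3 := hxy p p' q q' hq hq'
    have hq0 : (0 : ℝ) < q := by exact_mod_cast hq
    have hq0' : (0 : ℝ) < q' := by exact_mod_cast hq'
    have h4 : Real.exp (-D) ≤ c / 2 := by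
      calc Real.exp (-D) ≤ Real.exp (Real.log (c / 2)) := by
            apply Real.exp_le_exp.2
            have := le_max_right 0 (-Real.log (c / 2))
            rw [← hD] at this
            linarith
        _ = c / 2 := Real.exp_log (by positivity)
    have h5 := mul_le_mul_of_nonneg_right h4 (show 0 ≤ ((q : ℝ) * q') ^ (-κ) by positivity)
    linarith) hb hd δ g q₀ δ' g' q₀' N N' ht
    (min_le_left _ _) (min_le_right _ _)
  have : Nonempty Q := ⟨q₀⟩
  have hS : (1 : ℝ) ≤ Fintype.card Q := by exact_mod_cast Fintype.card_pos (α := Q)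
  have hS' : (0 : ℝ) ≤ Fintype.card Q' := Nat.cast_nonneg _
  set Z : ℝ := Fintype.card Q * Real.log b + Fintype.card Q' * Real.log d with hZ
  have hlb2 : Real.log 2 ≤ Real.log b := Real.log_le_log (by norm_num) (by exact_mod_cast hb)
  have hZ2 : Real.log 2 ≤ Z := by
    rw [hZ]
    nlinarith [mul_nonneg hS' hld.le]
  have hZ0 : 0 < Z := by linarith
  have h2 : Real.log (D + Z) ≤ Real.log Z + Real.log (1 + D / Real.log 2) := by
    refine log_shape hZ0 (by positivity) ?_ (by positivity)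
    calc D = D / Real.log 2 * Real.log 2 := by field_simp
      _ ≤ _ := mul_le_mul_of_nonneg_left hZ2 (by positivity)
  have h3 : (Real.log (min (N * Real.log b) (N' * Real.log d)) - (Real.log Z +
      Real.log (1 + D / Real.log 2))) / Real.log (2 * κ) ≤
      (Real.log (min (N * Real.log b) (N' * Real.log d)) - Real.log (D + Z)) /
        Real.log (2 * κ) := div_le_div_of_nonneg_right (by linarith) hl4.le
  have e4 : (Real.log (min (N * Real.log b) (N' * Real.log d)) - (Real.log Z +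
      Real.log (1 + D / Real.log 2))) / Real.log (2 * κ) =
      (Real.log (min (N * Real.log b) (N' * Real.log d)) - Real.log Z) / Real.log (2 * κ) -
      Real.log (1 + D / Real.log 2) / Real.log (2 * κ) := by ring
  have h6 := le_abs_self (1 + Real.log ((κ + 2) / (2 * κ - 1)) / Real.log (2 * κ))
  linarith

/-- one number, in terms of scales -/
theorem one_scale (κ c : ℝ) (hκ : 0 < κ) (hc : 0 < c) : ∃ C : ℝ, 0 ≤ C ∧ ∀ x : ℝ,
    (∀ q : ℕ, 1 ≤ q → ∀ p : ℤ, c * (q : ℝ) ^ (-κ) ≤ |q * x - p|) →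
    ∀ b : ℕ, 2 ≤ b → ∀ (Q : Type) [Fintype Q] (δ : Q → ℤ → Q) (g : Q → ℤ) (q₀ : Q) (N : ℕ), 1 ≤ N →
    (Real.log (N * Real.log b) - Real.log (Fintype.card Q * Real.log b)) / Real.log (1 + κ) - C ≤
      (err δ g (dg b x) q₀ 0 N : ℝ) := by
  refine ⟨|1 + Real.log (1 + (2 * (1 + κ) + max 0 (-Real.log c / Real.log 2)) / κ) / Real.log (1 + κ)|,
    abs_nonneg _, ?_⟩
  intro x hx b hb Q _ δ g q₀ N hN
  have h1 := Pool.Agent.V60.FSP.main b hb x κ c hκ hc hx δ g q₀ 0 N (by omega)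
  have : Nonempty Q := ⟨q₀⟩
  have hS : (0 : ℝ) < Fintype.card Q := by exact_mod_cast Fintype.card_pos (α := Q)
  have hN0 : (0 : ℝ) < N := by exact_mod_cast hN
  have hlb := log_base_pos hb
  rw [Real.log_mul hN0.ne' hlb.ne', Real.log_mul hS.ne' hlb.ne']
  simp only [Nat.cast_zero, zero_add] at h1
  have h6 := le_abs_self (1 + Real.log (1 + (2 * (1 + κ) + max 0 (-Real.log c / Real.log 2)) / κ) /
    Real.log (1 + κ))
  have e1 : Real.log N + Real.log (Real.log b) - (Real.log (Fintype.card Q) + Real.log (Real.log b)) =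
    Real.log N - Real.log (Fintype.card Q) := by ring
  rw [e1]
  linarith

/-- the number `e` -/
theorem e_bad (η : ℝ) (hη : 0 < η) : ∃ c : ℝ, 0 < c ∧ ∀ q : ℕ, 1 ≤ q → ∀ p : ℤ,
    c * (q : ℝ) ^ (-(1 + η)) ≤ |q * Real.exp 1 - p| := by
  obtain ⟨c, hc, _, h⟩ := coreE η hη
  refine ⟨c, hc, fun q hq p => ?_⟩
  have hq0 : (0 : ℝ) < q := by exact_mod_cast hq
  have hq1 : (1 : ℝ) ≤ q := by exact_mod_cast hq
  have h1 := h q (-p) (by exact_mod_cast (show q ≠ 0 by omega)) q (|q * Real.exp 1 - p| / q) hq1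
    (by positivity) (by push_cast; rw [abs_of_pos hq0]) (by
      rw [mul_div_cancel₀ _ hq0.ne']
      push_cast
      rw [show -(p : ℝ) + q * Real.exp 1 = q * Real.exp 1 - p by ring])
  rw [le_div_iff₀ hq0] at h1
  have e1 : (q : ℝ) ^ (-(2 + η)) * q = (q : ℝ) ^ (-(1 + η)) := by
    rw [← Real.rpow_add_one hq0.ne']
    congr 1
    ring
  rw [mul_assoc, e1] at h1
  exact h1

end Pool.Agent.V11015.FS
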