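import Pool.Agent.V11015.FS.FourE
import Pool.Agent.TH456.TM.Close

/-! Values of integer polynomials at two numbers without common good algebraic approximations: errors
of machines. -/

set_option autoImplicit false

namespace Pool.Agent.V11015.FS

open Finset Polynomial Pool.Agent.V60.FSP Pool.Agent.TH456.TM

theorem ht_le {P : ℤ[X]} {X : ℝ} (hX : 0 ≤ X) (h : ∀ i, |(P.coeff i : ℝ)| ≤ X) : (ht P : ℝ) ≤ X := by
  have h1 : ht P ≤ ⌊X⌋₊ := by
    unfold ht
    apply Finset.sup_le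
    intro i _
    apply Nat.le_floor
    have h2 := h i
    rw [Nat.cast_natAbs]
    push_cast
    exact h2
  exact (Nat.cast_le.2 h1).trans (Nat.floor_le hX)

theorem aeval_le {P : ℤ[X]} {n : ℕ} (hn : P.natDegree ≤ n) {H V v : ℝ} (hH : 0 ≤ H) (hV : 1 ≤ V)
    (hv : |v| ≤ V) (h : ∀ i, |(P.coeff i : ℝ)| ≤ H) : |aeval v P| ≤ ((n : ℝ) + 1) * H * V ^ n := by
  rw [Polynomial.aeval_eq_sum_range' (show P.natDegree < n + 1 by omega)]
  refine (Finset.abs_sum_le_sum_abs _ _).trans ?_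
  calc ∑ i ∈ range (n + 1), |P.coeff i • v ^ i| ≤ ∑ _i ∈ range (n + 1), H * V ^ n := by
        apply Finset.sum_le_sum
        intro i hi
        rw [zsmul_eq_mul, abs_mul, abs_pow]
        have h1 : |v| ^ i ≤ V ^ n := by
          calc |v| ^ i ≤ V ^ i := pow_le_pow_left₀ (abs_nonneg _) hv i
            _ ≤ V ^ n := pow_le_pow_right₀ hV (by rw [mem_range] at hi; omega)
        exact mul_le_mul (h i) h1 (by positivity) hH
    _ = _ := by
        rw [Finset.sum_const, Finset.card_range, nsmul_eq_mul]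
        push_cast
        ring

/-- the polynomial `q P - p d` -/
noncomputable def shiftP (P : ℤ[X]) (q d : ℕ) (p : ℤ) : ℤ[X] := C (q : ℤ) * P - C (p * d)

theorem aeval_shiftP (P : ℤ[X]) (q d : ℕ) (p : ℤ) (hq : 1 ≤ q) (hd : 1 ≤ d) (v : ℝ) :
    aeval v (shiftP P q d p) = q * d * (aeval v P / d - (p : ℝ) / q) := by
  have hq0 : (q : ℝ) ≠ 0 := by exact_mod_cast (show q ≠ 0 by omega)
  have hd0 : (d : ℝ) ≠ 0 := by exact_mod_cast (show d ≠ 0 by omega)
  unfold shiftP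
  rw [map_sub, map_mul, aeval_C, aeval_C]
  simp only [algebraMap_int_eq, eq_intCast, Int.cast_natCast, Int.cast_mul]
  field_simp

theorem shiftP_props {P : ℤ[X]} {n : ℕ} (hP : 0 < P.natDegree) (hn : P.natDegree ≤ n) {q d : ℕ} {p : ℤ}
    (hq : 1 ≤ q) : shiftP P q d p ≠ 0 ∧ (shiftP P q d p).natDegree ≤ n := by
  have h1 : (C (q : ℤ) * P).natDegree = P.natDegree :=
    natDegree_C_mul (by exact_mod_cast (show q ≠ 0 by omega))
  have h2 : (shiftP P q d p).natDegree = P.natDegree := by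
    unfold shiftP
    rw [natDegree_sub_C, h1]
  refine ⟨fun h0 => ?_, by omega⟩
  rw [h0, natDegree_zero] at h2
  omega

theorem shiftP_coeff {P : ℤ[X]} {n : ℕ} (hn : P.natDegree ≤ n) {q d : ℕ} {p : ℤ} {H V v : ℝ}
    (hH : 1 ≤ H) (hV : 1 ≤ V) (hv : |v| ≤ V) (h : ∀ i, |(P.coeff i : ℝ)| ≤ H) (hq : 1 ≤ q) (hd : 1 ≤ d)
    (hdH : (d : ℝ) ≤ H) (hp : |aeval v P / d - (p : ℝ) / q| ≤ 1) (i : ℕ) :
    |((shiftP P q d p).coeff i : ℝ)| ≤ ((n : ℝ) + 3) * V ^ n * H ^ 2 * q := by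
  have hq0 : (0 : ℝ) < q := by exact_mod_cast hq
  have hd0 : (0 : ℝ) < d := by exact_mod_cast hd
  have hd1 : (1 : ℝ) ≤ d := by exact_mod_cast hd
  have hH0 : 0 < H := by linarith
  have hVn : 1 ≤ V ^ n := one_le_pow₀ hV
  have hn0 : (0 : ℝ) ≤ n := Nat.cast_nonneg n
  have hA := aeval_le hn hH0.le hV hv h
  have hpd : |(p : ℝ) * d| ≤ q * ((((n : ℝ) + 1) * H * V ^ n) + d) := by
    have e1 : (p : ℝ) * d = q * aeval v P - q * d * (aeval v P / d - (p : ℝ) / q) := by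
      field_simp
      ring
    rw [e1]
    refine (abs_sub _ _).trans ?_
    rw [abs_mul, abs_mul, abs_of_pos hq0, abs_of_pos (mul_pos hq0 hd0), mul_add]
    apply add_le_add
    · exact mul_le_mul_of_nonneg_left hA hq0.le
    · have := mul_le_mul_of_nonneg_left hp (mul_pos hq0 hd0).le
      linarith
  have hbase : |((shiftP P q d p).coeff i : ℝ)| ≤ q * H + |(p : ℝ) * d| := by
    unfold shiftP
    rw [coeff_sub, coeff_C_mul, coeff_C]
    push_cast
    refine (abs_sub _ _).trans ?_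
    rw [abs_mul, abs_of_pos hq0]
    apply add_le_add
    · exact mul_le_mul_of_nonneg_left (h i) hq0.le
    · split_ifs
      · exact le_rfl
      · simp only [abs_zero]
        exact abs_nonneg _
  have hH2 : H ≤ H ^ 2 := by nlinarith
  have hVH : H ≤ V ^ n * H ^ 2 := by nlinarith
  calc |((shiftP P q d p).coeff i : ℝ)| ≤ q * H + q * ((((n : ℝ) + 1) * H * V ^ n) + d) := by linarith
    _ = q * (H + ((n : ℝ) + 1) * (H * V ^ n) + d) := by ring
    _ ≤ q * (V ^ n * H ^ 2 + ((n : ℝ) + 1) * (V ^ n * H ^ 2) + V ^ n * H ^ 2) := by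
        apply mul_le_mul_of_nonneg_left _ hq0.le
        have h3 : H * V ^ n ≤ V ^ n * H ^ 2 := by nlinarith
        have h4 := mul_le_mul_of_nonneg_left h3 (show (0 : ℝ) ≤ (n : ℝ) + 1 by positivity)
        linarith
    _ = _ := by ring

/-- no common good algebraic approximations of degree at most `n` -/
def JointAlg (n : ℕ) (κ c v w : ℝ) : Prop := ∀ P Q : ℤ[X], P ≠ 0 → Q ≠ 0 → P.natDegree ≤ n →
  Q.natDegree ≤ n → ∀ H : ℝ, (ht P : ℝ) ≤ H → (ht Q : ℝ) ≤ H →
    c * H ^ (-κ) ≤ max |aeval v P| |aeval w Q|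

theorem poly_pair (n : ℕ) (κ c V : ℝ) (hκ : 0 < κ) (hc : 0 < c) (hV : 1 ≤ V) : ∃ K : ℝ, 0 ≤ K ∧
    ∀ v w : ℝ, |v| ≤ V → |w| ≤ V → JointAlg n κ c v w → ∀ (P P' : ℤ[X]) (H : ℝ), 1 ≤ H →
    0 < P.natDegree → P.natDegree ≤ n → 0 < P'.natDegree → P'.natDegree ≤ n →
    (∀ i, |(P.coeff i : ℝ)| ≤ H) → (∀ i, |(P'.coeff i : ℝ)| ≤ H) → ∀ d d' : ℕ, 1 ≤ d → 1 ≤ d' →
    (d : ℝ) ≤ H → (d' : ℝ) ≤ H → ∀ (q q' : ℕ) (p p' : ℤ), 1 ≤ q → 1 ≤ q' → ∀ S : ℝ,
    |aeval v P / d - (p : ℝ) / q| ≤ S → |aeval w P' / d' - (p' : ℝ) / q'| ≤ S →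
    Real.exp (-(K * (1 + Real.log H))) * ((q : ℝ) * q') ^ (-(κ + 1)) ≤ S := by
  set K1 : ℝ := ((n : ℝ) + 3) * V ^ n with hK1
  have hVn : 1 ≤ V ^ n := one_le_pow₀ hV
  have hn0 : (0 : ℝ) ≤ n := Nat.cast_nonneg n
  have hK11 : 1 ≤ K1 := by rw [hK1]; nlinarith
  have hlK1 : 0 ≤ Real.log K1 := Real.log_nonneg hK11
  refine ⟨|Real.log c| + κ * Real.log K1 + (2 * κ + 1), by positivity, ?_⟩
  intro v w hv hw hJ P P' H hH hP hPn hP' hPn' hPH hPH' d d' hd hd' hdH hdH' q q' p p' hq hq' S h1 h2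
  have hH0 : 0 < H := by linarith
  have hlH : 0 ≤ Real.log H := Real.log_nonneg hH
  have hq1 : (1 : ℝ) ≤ q := by exact_mod_cast hq
  have hq1' : (1 : ℝ) ≤ q' := by exact_mod_cast hq'
  have hq0 : (0 : ℝ) < q := by linarith
  have hq0' : (0 : ℝ) < q' := by linarith
  have hd0 : (0 : ℝ) < d := by exact_mod_cast hd
  have hd0' : (0 : ℝ) < d' := by exact_mod_cast hd'
  have hS0 : 0 ≤ S := (abs_nonneg _).trans h1
  have hqq : (1 : ℝ) ≤ q * q' := by nlinarith
  have hqq0 : (0 : ℝ) < q * q' := by linarith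
  set D : ℝ := (|Real.log c| + κ * Real.log K1 + (2 * κ + 1)) * (1 + Real.log H) with hD
  have hD0 : 0 ≤ D := by positivity
  rcases le_or_gt 1 S with hS | hS
  · have e1 : Real.exp (-D) ≤ 1 := Real.exp_le_one_iff.2 (by linarith)
    have e2 : ((q : ℝ) * q') ^ (-(κ + 1)) ≤ 1 :=
      Real.rpow_le_one_of_one_le_of_nonpos hqq (by linarith)
    calc Real.exp (-D) * ((q : ℝ) * q') ^ (-(κ + 1)) ≤ 1 * 1 :=
          mul_le_mul e1 e2 (by positivity) zero_le_one
      _ ≤ S := by linarith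
  · obtain ⟨n1, n2⟩ := shiftP_props (d := d) (p := p) hP hPn hq
    obtain ⟨m1, m2⟩ := shiftP_props (d := d') (p := p') hP' hPn' hq'
    have hH2 : (1 : ℝ) ≤ H ^ 2 := one_le_pow₀ hH
    have c1 : (ht (shiftP P q d p) : ℝ) ≤ K1 * H ^ 2 * (q * q') := by
      refine (ht_le (X := K1 * H ^ 2 * q) (by positivity) (fun i =>
        shiftP_coeff hPn hH hV hv hPH hq hd hdH (h1.trans hS.le) i)).trans ?_
      have : 0 ≤ K1 * H ^ 2 * q := by positivity
      nlinarith
    have c2 : (ht (shiftP P' q' d' p') : ℝ) ≤ K1 * H ^ 2 * (q * q') := by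
      refine (ht_le (X := K1 * H ^ 2 * q') (by positivity) (fun i =>
        shiftP_coeff hPn' hH hV hw hPH' hq' hd' hdH' (h2.trans hS.le) i)).trans ?_
      have : 0 ≤ K1 * H ^ 2 * q' := by positivity
      nlinarith
    have h3 := hJ _ _ n1 m1 n2 m2 _ c1 c2
    have a1 : ∀ z : ℝ, |(q : ℝ) * d * z| = q * d * |z| := fun z => by
      rw [abs_mul, abs_of_pos (mul_pos hq0 hd0)]
    have a2 : ∀ z : ℝ, |(q' : ℝ) * d' * z| = q' * d' * |z| := fun z => by
      rw [abs_mul, abs_of_pos (mul_pos hq0' hd0')]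
    rw [aeval_shiftP P q d p hq hd, aeval_shiftP P' q' d' p' hq' hd', a1, a2] at h3
    have h4 : max ((q : ℝ) * d * |aeval v P / d - (p : ℝ) / q|)
        ((q' : ℝ) * d' * |aeval w P' / d' - (p' : ℝ) / q'|) ≤ q * q' * H * S := by
      apply max_le
      · calc (q : ℝ) * d * |aeval v P / d - (p : ℝ) / q| ≤ q * H * S :=
              mul_le_mul (mul_le_mul_of_nonneg_left hdH hq0.le) h1 (abs_nonneg _) (by positivity)
          _ ≤ _ := by
              have : 0 ≤ (q : ℝ) * H * S := by positivity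
              nlinarith
      · calc (q' : ℝ) * d' * |aeval w P' / d' - (p' : ℝ) / q'| ≤ q' * H * S :=
              mul_le_mul (mul_le_mul_of_nonneg_left hdH' hq0'.le) h2 (abs_nonneg _) (by positivity)
          _ ≤ _ := by
              have : 0 ≤ (q' : ℝ) * H * S := by positivity
              nlinarith
    have h5 : c * (K1 * H ^ 2 * (q * q')) ^ (-κ) ≤ q * q' * H * S := h3.trans h4
    have hKH : 0 < K1 * H ^ 2 := by positivity
    rw [Real.mul_rpow hKH.le hqq0.le] at h5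
    have e3 : ((q : ℝ) * q') ^ (-(κ + 1)) * (q * q') = ((q : ℝ) * q') ^ (-κ) := by
      rw [← Real.rpow_add_one hqq0.ne']
      congr 1
      ring
    have h6 : Real.exp (-D) ≤ c * (K1 * H ^ 2) ^ (-κ) / H := by
      rw [← Real.log_le_log_iff (Real.exp_pos _) (by positivity), Real.log_exp,
        Real.log_div (by positivity) hH0.ne', Real.log_mul hc.ne' (by positivity), Real.log_rpow hKH,
        Real.log_mul (by positivity) (by positivity), Real.log_pow, hD]
      have h7 := neg_abs_le (Real.log c)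
      have h8 := abs_nonneg (Real.log c)
      push_cast
      nlinarith [mul_nonneg h8 hlH, mul_nonneg hκ.le hlH, mul_nonneg (mul_nonneg hκ.le hlK1) hlH]
    have h9 : c * (K1 * H ^ 2) ^ (-κ) / H * ((q : ℝ) * q') ^ (-(κ + 1)) ≤ S := by
      have h10 : c * ((K1 * H ^ 2) ^ (-κ) * (((q : ℝ) * q') ^ (-(κ + 1)) * (q * q'))) ≤ q * q' * H * S := by
        rw [e3]
        exact h5
      have h11 : (c * (K1 * H ^ 2) ^ (-κ) * ((q : ℝ) * q') ^ (-(κ + 1))) * (q * q') ≤
          (H * S) * (q * q') := by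
        calc _ = c * ((K1 * H ^ 2) ^ (-κ) * (((q : ℝ) * q') ^ (-(κ + 1)) * (q * q'))) := by ring
          _ ≤ _ := h10
          _ = _ := by ring
      have h12 := le_of_mul_le_mul_right h11 hqq0
      rw [div_mul_eq_mul_div, div_le_iff₀ hH0]
      linarith
    exact (mul_le_mul_of_nonneg_right h6 (by positivity)).trans h9

/-- two polynomials, two machines, own bases -/
theorem poly_bound (n : ℕ) (κ c V : ℝ) (hκ : 0 < κ) (hc : 0 < c) (hV : 1 ≤ V) : ∃ C : ℝ, 0 ≤ C ∧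
    ∀ v w : ℝ, |v| ≤ V → |w| ≤ V → JointAlg n κ c v w → ∀ (P P' : ℤ[X]) (H : ℝ), 1 ≤ H →
    0 < P.natDegree → P.natDegree ≤ n → 0 < P'.natDegree → P'.natDegree ≤ n →
    (∀ i, |(P.coeff i : ℝ)| ≤ H) → (∀ i, |(P'.coeff i : ℝ)| ≤ H) → ∀ d d' : ℕ, 1 ≤ d → 1 ≤ d' →
    (d : ℝ) ≤ H → (d' : ℝ) ≤ H → ∀ b b' : ℕ, 2 ≤ b → 2 ≤ b' →
    ∀ (Q Q' : Type) [Fintype Q] [Fintype Q'] (δ : Q → ℤ → Q)
    (g : Q → ℤ) (q₀ : Q) (δ' : Q' → ℤ → Q') (g' : Q' → ℤ) (q₀' : Q') (N N' : ℕ), 1 ≤ N → 1 ≤ N' →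
    (Real.log (min (N * Real.log b) (N' * Real.log b')) -
      Real.log (Fintype.card Q * Real.log b + Fintype.card Q' * Real.log b' + Real.log H)) /
      Real.log (2 * (κ + 1)) - C ≤
      (err δ g (dg b (aeval v P / d)) q₀ 0 N : ℝ) + err δ' g' (dg b' (aeval w P' / d')) q₀' 0 N' := by
  obtain ⟨K, hK, h⟩ := poly_pair n κ c V hκ hc hV
  have hl2 : 0 < Real.log 2 := Real.log_pos one_lt_two
  have hl4 : 0 < Real.log (2 * (κ + 1)) := Real.log_pos (by linarith)
  refine ⟨|1 + Real.log ((κ + 1 + 2) / (2 * (κ + 1) - 1)) / Real.log (2 * (κ + 1))| +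
    Real.log (1 + (K / Real.log 2 + K)) / Real.log (2 * (κ + 1)), ?_, ?_⟩
  · have : 0 ≤ Real.log (1 + (K / Real.log 2 + K)) := Real.log_nonneg (by
      have : 0 ≤ K / Real.log 2 := by positivity
      linarith)
    positivity
  intro v w hv hw hJ P P' H hH hP hPn hP' hPn' hPH hPH' d d' hd hd' hdH hdH' b b' hb hb' Q Q' _ _ δ g q₀
    δ' g' q₀' N N' hN hN'
  have hlH : 0 ≤ Real.log H := Real.log_nonneg hH
  have hlb := log_base_pos hb
  have hlc := log_base_pos hb'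
  have hN1 : (1 : ℝ) ≤ N := by exact_mod_cast hN
  have hN1' : (1 : ℝ) ≤ N' := by exact_mod_cast hN'
  have ht : 0 < min (N * Real.log b) (N' * Real.log b') := lt_min (by positivity) (by positivity)
  have h1 := main_two (κ := κ + 1) (by linarith) (D := K * (1 + Real.log H)) (by positivity)
    (h v w hv hw hJ P P' H hH hP hPn hP' hPn' hPH hPH' d d' hd hd' hdH hdH') hb hb' δ g q₀ δ' g' q₀' N N' ht
    (min_le_left _ _) (min_le_right _ _)
  have : Nonempty Q := ⟨q₀⟩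
  have hS : (1 : ℝ) ≤ Fintype.card Q := by exact_mod_cast Fintype.card_pos (α := Q)
  have hS' : (0 : ℝ) ≤ Fintype.card Q' := Nat.cast_nonneg _
  set Z : ℝ := Fintype.card Q * Real.log b + Fintype.card Q' * Real.log b' with hZ
  have hlb2 : Real.log 2 ≤ Real.log b := Real.log_le_log (by norm_num) (by exact_mod_cast hb)
  have hZ2 : Real.log 2 ≤ Z := by
    rw [hZ]
    nlinarith [mul_nonneg hS' hlc.le]
  have hZH : 0 < Z + Real.log H := by linarith
  have h2 : Real.log (K * (1 + Real.log H) + Z) ≤ Real.log (Z + Real.log H) +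
      Real.log (1 + (K / Real.log 2 + K)) := by
    have e0 : 0 ≤ K * (1 + Real.log H) := by positivity
    have e1 : K * (1 + Real.log H) + Z ≤ K * (1 + Real.log H) + (Z + Real.log H) := by linarith
    refine (Real.log_le_log (by linarith) e1).trans (log_shape hZH (by positivity) ?_ (by linarith))
    have e2 : K = K / Real.log 2 * Real.log 2 := by field_simp
    have e3 : K ≤ K / Real.log 2 * (Z + Real.log H) := by
      calc K = K / Real.log 2 * Real.log 2 := e2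
        _ ≤ _ := mul_le_mul_of_nonneg_left (by linarith) (by positivity)
    nlinarith
  have h3 : (Real.log (min (N * Real.log b) (N' * Real.log b')) - (Real.log (Z + Real.log H) +
      Real.log (1 + (K / Real.log 2 + K)))) / Real.log (2 * (κ + 1)) ≤
      (Real.log (min (N * Real.log b) (N' * Real.log b')) - Real.log (K * (1 + Real.log H) + Z)) /
        Real.log (2 * (κ + 1)) := div_le_div_of_nonneg_right (by linarith) hl4.le
  have e4 : (Real.log (min (N * Real.log b) (N' * Real.log b')) - (Real.log (Z + Real.log H) +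
      Real.log (1 + (K / Real.log 2 + K)))) / Real.log (2 * (κ + 1)) =
      (Real.log (min (N * Real.log b) (N' * Real.log b')) - Real.log (Z + Real.log H)) /
        Real.log (2 * (κ + 1)) - Real.log (1 + (K / Real.log 2 + K)) / Real.log (2 * (κ + 1)) := by ring
  have h6 := le_abs_self (1 + Real.log ((κ + 1 + 2) / (2 * (κ + 1) - 1)) / Real.log (2 * (κ + 1)))
  linarith

end Pool.Agent.V11015.FS
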