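import Pool.Agent.V11015.FS.TwoForms

/-! Products of an arbitrary real number with polynomials in a number with a transcendence measure:
errors of machines. -/

set_option autoImplicit false

namespace Pool.Agent.V11015.FS

open Finset Polynomial Pool.Agent.V60.FSP

/-- a transcendence measure in degree `n` -/
def PMeas (θ : ℝ) (n : ℕ) (μ c : ℝ) : Prop := ∀ P : ℤ[X], P ≠ 0 → P.natDegree ≤ n →
  ∀ H : ℝ, 1 ≤ H → (∀ j, |(P.coeff j : ℝ)| ≤ H) → c ≤ H ^ μ * |aeval θ P|

/-- a bounded polynomial -/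
def Bdd (n : ℕ) (H : ℝ) (P : ℤ[X]) : Prop := P.natDegree ≤ n ∧ ∀ j, |(P.coeff j : ℝ)| ≤ H

/-- a bound for the powers -/
noncomputable def pw (θ : ℝ) (n : ℕ) : ℝ := ((n : ℝ) + 1) * (1 + |θ|) ^ n

theorem pw_one (θ : ℝ) (n : ℕ) : 1 ≤ pw θ n := by
  unfold pw
  have h1 : (1 : ℝ) ≤ (1 + |θ|) ^ n := one_le_pow₀ (by have := abs_nonneg θ; linarith)
  have h2 : (0 : ℝ) ≤ n := Nat.cast_nonneg n
  nlinarith

theorem val_le {θ : ℝ} {n : ℕ} {H : ℝ} {P : ℤ[X]} (hH : 0 ≤ H) (h : Bdd n H P) :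
    |aeval θ P| ≤ H * pw θ n := by
  have h0 : 0 ≤ |θ| := abs_nonneg θ
  rw [aeval_eq_sum_range' (lt_of_le_of_lt h.1 (Nat.lt_succ_self n)) θ]
  refine (Finset.abs_sum_le_sum_abs _ _).trans ?_
  have h1 : ∀ i ∈ range (n + 1), |(P.coeff i) • θ ^ i| ≤ H * (1 + |θ|) ^ n := by
    intro i hi
    have hi' : i ≤ n := Nat.lt_succ_iff.1 (Finset.mem_range.1 hi)
    rw [zsmul_eq_mul, abs_mul, abs_pow]
    have h2 : |θ| ^ i ≤ (1 + |θ|) ^ n := by
      calc |θ| ^ i ≤ (1 + |θ|) ^ i := pow_le_pow_left₀ h0 (by linarith) i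
        _ ≤ (1 + |θ|) ^ n := pow_le_pow_right₀ (by linarith) hi'
    exact mul_le_mul (h.2 i) h2 (by positivity) hH
  refine (Finset.sum_le_sum h1).trans ?_
  rw [Finset.sum_const, Finset.card_range, nsmul_eq_mul]
  unfold pw
  push_cast
  exact le_of_eq (by ring)

/-- the core inequality with a common multiple `m` of the denominators -/
theorem mult_core {θ : ℝ} {n : ℕ} {μ c : ℝ} (hμ : 0 ≤ μ) (hc : 0 < c) (hθ : PMeas θ n μ c) (δ T : ℝ)
    (hδ : 0 < δ) (hT : 0 ≤ T) : ∃ K : ℝ, 0 ≤ K ∧ ∀ t : ℝ, δ ≤ |t| → |t| ≤ T → ∀ H : ℝ, 1 ≤ H →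
    ∀ P Q : ℤ[X], Bdd n H P → Bdd n H Q → (∀ u v : ℤ, C u * P = C v * Q → u = 0 ∧ v = 0) →
    ∀ d d' : ℕ, 1 ≤ d → 1 ≤ d' → (d : ℝ) ≤ H → (d' : ℝ) ≤ H →
    ∀ (q q' w w' m : ℕ) (p p' : ℤ), 1 ≤ q → 1 ≤ q' → 1 ≤ w → 1 ≤ w' → m = q * w → m = q' * w' →
    ∀ S : ℝ, |t * aeval θ P / d - (p : ℝ) / q| ≤ S → |t * aeval θ Q / d' - (p' : ℝ) / q'| ≤ S →
    Real.exp (-(K * (1 + Real.log H))) * (m : ℝ) ^ (-(μ + 1)) ≤ S := by
  set Θ : ℝ := pw θ n with hΘ
  have hΘ1 : 1 ≤ Θ := pw_one θ n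
  set B : ℝ := 2 * (T * Θ + 1) with hB
  have hTΘ : 0 ≤ T * Θ := by positivity
  have hB1 : 1 ≤ B := by rw [hB]; linarith
  set c1 : ℝ := c / (2 * Θ * B ^ μ) with hc1
  have hc1' : 0 < c1 := by positivity
  set c0 : ℝ := min 1 (min c1 (δ * c)) with hc0
  have hc0' : 0 < c0 := lt_min one_pos (lt_min hc1' (by positivity))
  have hc01 : c0 ≤ 1 := min_le_left _ _
  have hlc : Real.log c0 ≤ 0 := Real.log_nonpos hc0'.le hc01
  refine ⟨(3 * μ + 2) - Real.log c0, by linarith, ?_⟩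
  intro t ht htT H hH P Q hP hQ hind d d' hd hd' hdH hdH' q q' w w' m p p' hq hq' hw hw' hm hm' S h1 h2
  have hH0 : 0 < H := by linarith
  have hlH : 0 ≤ Real.log H := Real.log_nonneg hH
  have hqR : (1 : ℝ) ≤ q := by exact_mod_cast hq
  have hqR' : (1 : ℝ) ≤ q' := by exact_mod_cast hq'
  have hwR : (1 : ℝ) ≤ w := by exact_mod_cast hw
  have hwR' : (1 : ℝ) ≤ w' := by exact_mod_cast hw'
  have hdR : (1 : ℝ) ≤ d := by exact_mod_cast hd
  have hdR' : (1 : ℝ) ≤ d' := by exact_mod_cast hd'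
  have hmR : (m : ℝ) = q * w := by exact_mod_cast hm
  have hmR' : (m : ℝ) = q' * w' := by exact_mod_cast hm'
  have hm1 : (1 : ℝ) ≤ m := by rw [hmR]; nlinarith
  have hm0 : (0 : ℝ) < m := by linarith
  have hS0 : 0 ≤ S := (abs_nonneg _).trans h1
  have hP0 : P ≠ 0 := by
    intro h
    have := hind 1 0 (by rw [h]; simp)
    exact one_ne_zero this.1
  -- the left side
  have hleft : Real.exp (-(((3 * μ + 2) - Real.log c0) * (1 + Real.log H))) * (m : ℝ) ^ (-(μ + 1)) ≤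
      c0 * H ^ (-(3 * μ + 2)) * (m : ℝ) ^ (-(μ + 1)) := by
    apply mul_le_mul_of_nonneg_right _ (by positivity)
    rw [← Real.log_le_log_iff (Real.exp_pos _) (by positivity), Real.log_exp,
      Real.log_mul hc0'.ne' (by positivity), Real.log_rpow hH0]
    nlinarith [mul_nonneg (neg_nonneg.2 hlc) hlH]
  refine hleft.trans ?_
  have hmm : (m : ℝ) ^ (-(μ + 1)) ≤ 1 := Real.rpow_le_one_of_one_le_of_nonpos hm1 (by linarith)
  have hHH : H ^ (-(3 * μ + 2)) ≤ 1 := Real.rpow_le_one_of_one_le_of_nonpos hH (by linarith)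
  have hmm0 : 0 ≤ (m : ℝ) ^ (-(μ + 1)) := by positivity
  have hHH0 : 0 ≤ H ^ (-(3 * μ + 2)) := by positivity
  rcases lt_or_ge 1 S with hS1 | hS1
  · have h3 : c0 * H ^ (-(3 * μ + 2)) * (m : ℝ) ^ (-(μ + 1)) ≤ 1 := by
      have h4 : c0 * H ^ (-(3 * μ + 2)) ≤ 1 := mul_le_one₀ hc01 hHH0 hHH
      exact mul_le_one₀ h4 hmm0 hmm
    linarith
  have vP := val_le (θ := θ) hH0.le hP
  have vQ := val_le (θ := θ) hH0.le hQ
  rw [← hΘ] at vP vQ
  set x : ℝ := t * aeval θ P / d with hx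
  set y : ℝ := t * aeval θ Q / d' with hy
  have hxB : |x| ≤ T * Θ * H := by
    rw [hx, abs_div, abs_mul, Nat.abs_cast, div_le_iff₀ (by linarith)]
    have h3 : |t| * |aeval θ P| ≤ T * (H * Θ) := mul_le_mul htT vP (abs_nonneg _) hT
    have h4 : 0 ≤ T * Θ * H := by positivity
    nlinarith
  have hyB : |y| ≤ T * Θ * H := by
    rw [hy, abs_div, abs_mul, Nat.abs_cast, div_le_iff₀ (by linarith)]
    have h3 : |t| * |aeval θ Q| ≤ T * (H * Θ) := mul_le_mul htT vQ (abs_nonneg _) hT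
    have h4 : 0 ≤ T * Θ * H := by positivity
    nlinarith
  -- the integers `p w`, `p' w'`
  have hpB : |(p : ℝ)| * w ≤ B / 2 * H * m := by
    have h3 : |(p : ℝ) / q| ≤ T * Θ * H + 1 := by
      have h4 : |(p : ℝ) / q| ≤ |x| + |x - (p : ℝ) / q| := by
        have := abs_sub_abs_le_abs_sub ((p : ℝ) / q) x
        rw [abs_sub_comm] at this
        linarith
      linarith
    rw [abs_div, Nat.abs_cast, div_le_iff₀ (by linarith)] at h3
    have h5 : |(p : ℝ)| * w ≤ (T * Θ * H + 1) * m := by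
      rw [hmR]
      calc |(p : ℝ)| * w ≤ ((T * Θ * H + 1) * q) * w :=
            mul_le_mul_of_nonneg_right h3 (by linarith)
        _ = (T * Θ * H + 1) * (q * w) := by ring
    refine h5.trans ?_
    rw [hB]
    have h6 : T * Θ * H + 1 ≤ (T * Θ + 1) * H := by nlinarith
    calc (T * Θ * H + 1) * m ≤ ((T * Θ + 1) * H) * m := mul_le_mul_of_nonneg_right h6 hm0.le
      _ = _ := by ring
  have hpB' : |(p' : ℝ)| * w' ≤ B / 2 * H * m := by
    have h3 : |(p' : ℝ) / q'| ≤ T * Θ * H + 1 := by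
      have h4 : |(p' : ℝ) / q'| ≤ |y| + |y - (p' : ℝ) / q'| := by
        have := abs_sub_abs_le_abs_sub ((p' : ℝ) / q') y
        rw [abs_sub_comm] at this
        linarith
      linarith
    rw [abs_div, Nat.abs_cast, div_le_iff₀ (by linarith)] at h3
    have h5 : |(p' : ℝ)| * w' ≤ (T * Θ * H + 1) * m := by
      rw [hmR']
      calc |(p' : ℝ)| * w' ≤ ((T * Θ * H + 1) * q') * w' :=
            mul_le_mul_of_nonneg_right h3 (by linarith)
        _ = (T * Θ * H + 1) * (q' * w') := by ring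
    refine h5.trans ?_
    rw [hB]
    have h6 : T * Θ * H + 1 ≤ (T * Θ + 1) * H := by nlinarith
    calc (T * Θ * H + 1) * m ≤ ((T * Θ + 1) * H) * m := mul_le_mul_of_nonneg_right h6 hm0.le
      _ = _ := by ring
  -- the polynomial
  set R : ℤ[X] := C (d * w * p) * Q - C (d' * w' * p') * P with hR
  have hRdeg : R.natDegree ≤ n := by
    rw [hR]
    refine (natDegree_sub_le _ _).trans (max_le ?_ ?_)
    · exact (natDegree_C_mul_le _ _).trans hQ.1
    · exact (natDegree_C_mul_le _ _).trans hP.1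
  have hRc : ∀ j, |(R.coeff j : ℝ)| ≤ B * H ^ 3 * m := by
    intro j
    rw [hR, coeff_sub, coeff_C_mul, coeff_C_mul]
    push_cast
    have a1 : |(d : ℝ) * w * p * (Q.coeff j : ℝ)| ≤ B / 2 * H ^ 3 * m := by
      rw [abs_mul, abs_mul, abs_mul, Nat.abs_cast, Nat.abs_cast]
      calc (d : ℝ) * w * |(p : ℝ)| * |(Q.coeff j : ℝ)| = (|(p : ℝ)| * w) * (d * |(Q.coeff j : ℝ)|) := by
            ring
        _ ≤ (B / 2 * H * m) * (H * H) :=
            mul_le_mul hpB (mul_le_mul hdH (hQ.2 j) (abs_nonneg _) hH0.le) (by positivity)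
              (by positivity)
        _ = _ := by ring
    have a2 : |(d' : ℝ) * w' * p' * (P.coeff j : ℝ)| ≤ B / 2 * H ^ 3 * m := by
      rw [abs_mul, abs_mul, abs_mul, Nat.abs_cast, Nat.abs_cast]
      calc (d' : ℝ) * w' * |(p' : ℝ)| * |(P.coeff j : ℝ)| =
            (|(p' : ℝ)| * w') * (d' * |(P.coeff j : ℝ)|) := by ring
        _ ≤ (B / 2 * H * m) * (H * H) :=
            mul_le_mul hpB' (mul_le_mul hdH' (hP.2 j) (abs_nonneg _) hH0.le) (by positivity)
              (by positivity)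
        _ = _ := by ring
    have a3 := abs_sub ((d : ℝ) * w * p * (Q.coeff j : ℝ)) ((d' : ℝ) * w' * p' * (P.coeff j : ℝ))
    linarith
  have hRv : |aeval θ R| ≤ 2 * H ^ 2 * Θ * m * S := by
    have e0 : aeval θ R = m * (d' * aeval θ P * (y - (p' : ℝ) / q')) -
        m * (d * aeval θ Q * (x - (p : ℝ) / q)) := by
      have e1 : (d : ℝ) * x = t * aeval θ P := by rw [hx]; field_simp
      have e2 : (d' : ℝ) * y = t * aeval θ Q := by rw [hy]; field_simp
      have e3 : (m : ℝ) * ((p : ℝ) / q) = w * p := by rw [hmR]; field_simp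
      have e4 : (m : ℝ) * ((p' : ℝ) / q') = w' * p' := by rw [hmR']; field_simp
      have e5 : aeval θ R = d * (w * p) * aeval θ Q - d' * (w' * p') * aeval θ P := by
        have e6 : ∀ (z : ℤ) (F : ℤ[X]), aeval θ (C z * F) = (z : ℝ) * aeval θ F := by
          intro z F
          rw [map_mul, aeval_C]
          simp
        rw [hR, map_sub, e6, e6]
        push_cast
        ring
      rw [e5, ← e3, ← e4]
      linear_combination (m : ℝ) * aeval θ Q * e1 - (m : ℝ) * aeval θ P * e2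
    rw [e0]
    have a1 : |(m : ℝ) * (d' * aeval θ P * (y - (p' : ℝ) / q'))| ≤ m * (H * (H * Θ) * S) := by
      rw [abs_mul, abs_mul, abs_mul, Nat.abs_cast, Nat.abs_cast]
      refine mul_le_mul_of_nonneg_left ?_ hm0.le
      exact mul_le_mul (mul_le_mul hdH' vP (abs_nonneg _) hH0.le) h2 (abs_nonneg _) (by positivity)
    have a2 : |(m : ℝ) * (d * aeval θ Q * (x - (p : ℝ) / q))| ≤ m * (H * (H * Θ) * S) := by
      rw [abs_mul, abs_mul, abs_mul, Nat.abs_cast, Nat.abs_cast]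
      refine mul_le_mul_of_nonneg_left ?_ hm0.le
      exact mul_le_mul (mul_le_mul hdH vQ (abs_nonneg _) hH0.le) h1 (abs_nonneg _) (by positivity)
    have a3 := abs_sub ((m : ℝ) * (d' * aeval θ P * (y - (p' : ℝ) / q')))
      ((m : ℝ) * (d * aeval θ Q * (x - (p : ℝ) / q)))
    nlinarith
  by_cases hR0 : R = 0
  · -- both integers vanish
    have h3 := hind (d' * w' * p') (d * w * p) (by
      have h4 : C (d * w * p : ℤ) * Q - C (d' * w' * p' : ℤ) * P = 0 := hR0
      exact (sub_eq_zero.1 h4).symm)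
    have hp : p = 0 := by
      have h4 : ((d : ℤ) * w) * p = 0 := h3.2
      rcases mul_eq_zero.1 h4 with h5 | h5
      · exfalso
        rcases mul_eq_zero.1 h5 with h6 | h6 <;> omega
      · exact h5
    rw [hp, Int.cast_zero, zero_div, sub_zero] at h1
    have h5 := hθ P hP0 hP.1 H hH hP.2
    have h6 : |t| * |aeval θ P| / d ≤ S := by
      rw [hx, abs_div, abs_mul, Nat.abs_cast] at h1
      exact h1
    have h7 : δ * c ≤ H ^ (μ + 1) * S := by
      have h8 : |t| * |aeval θ P| ≤ S * H := by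
        rw [div_le_iff₀ (by linarith)] at h6
        exact h6.trans (mul_le_mul_of_nonneg_left hdH hS0)
      have h9 : 0 ≤ H ^ μ := by positivity
      calc δ * c ≤ |t| * (H ^ μ * |aeval θ P|) := mul_le_mul ht h5 hc.le (abs_nonneg _)
        _ = H ^ μ * (|t| * |aeval θ P|) := by ring
        _ ≤ H ^ μ * (S * H) := mul_le_mul_of_nonneg_left h8 h9
        _ = H ^ (μ + 1) * S := by
            rw [Real.rpow_add hH0, Real.rpow_one]
            ring
    have h10 : H ^ (-(3 * μ + 2)) * H ^ (μ + 1) ≤ 1 := by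
      rw [← Real.rpow_add hH0]
      exact Real.rpow_le_one_of_one_le_of_nonpos hH (by linarith)
    have hc0δ : c0 ≤ δ * c := (min_le_right _ _).trans (min_le_right _ _)
    calc c0 * H ^ (-(3 * μ + 2)) * (m : ℝ) ^ (-(μ + 1))
        ≤ c0 * H ^ (-(3 * μ + 2)) * 1 := mul_le_mul_of_nonneg_left hmm (by positivity)
      _ ≤ (δ * c) * H ^ (-(3 * μ + 2)) := by
          rw [mul_one]
          exact mul_le_mul_of_nonneg_right hc0δ hHH0
      _ ≤ (H ^ (μ + 1) * S) * H ^ (-(3 * μ + 2)) := mul_le_mul_of_nonneg_right h7 hHH0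
      _ = (H ^ (-(3 * μ + 2)) * H ^ (μ + 1)) * S := by ring
      _ ≤ 1 * S := mul_le_mul_of_nonneg_right h10 hS0
      _ = S := one_mul S
  · have hBm : 1 ≤ B * H ^ 3 * m := by
      have h3 : (1 : ℝ) ≤ H ^ 3 := one_le_pow₀ hH
      have h4 : 1 ≤ B * H ^ 3 := one_le_mul_of_one_le_of_one_le hB1 h3
      exact one_le_mul_of_one_le_of_one_le h4 hm1
    have h3 := hθ R hR0 hRdeg (B * H ^ 3 * m) hBm hRc
    have h4 : c ≤ (B * H ^ 3 * m) ^ μ * (2 * H ^ 2 * Θ * m * S) :=
      h3.trans (mul_le_mul_of_nonneg_left hRv (by positivity))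
    have h5 : (B * H ^ 3 * (m : ℝ)) ^ μ = B ^ μ * H ^ (3 * μ) * (m : ℝ) ^ μ := by
      rw [Real.mul_rpow (by positivity) hm0.le, Real.mul_rpow (by positivity) (by positivity),
        ← Real.rpow_natCast H 3, ← Real.rpow_mul hH0.le]
      norm_num
    rw [h5] at h4
    have h6 : c1 ≤ H ^ (3 * μ + 2) * (m : ℝ) ^ (μ + 1) * S := by
      rw [hc1, div_le_iff₀ (by positivity), Real.rpow_add hH0, Real.rpow_add hm0, Real.rpow_one]
      have e1 : H ^ (2 : ℝ) = H ^ 2 := by
        rw [← Real.rpow_natCast]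
        norm_num
      rw [e1]
      calc c ≤ _ := h4
        _ = _ := by ring
    have hc0c1 : c0 ≤ c1 := (min_le_right _ _).trans (min_le_left _ _)
    have e1 : H ^ (-(3 * μ + 2)) * H ^ (3 * μ + 2) = 1 := by
      rw [← Real.rpow_add hH0, neg_add_cancel, Real.rpow_zero]
    have e2 : (m : ℝ) ^ (-(μ + 1)) * (m : ℝ) ^ (μ + 1) = 1 := by
      rw [← Real.rpow_add hm0, neg_add_cancel, Real.rpow_zero]
    calc c0 * H ^ (-(3 * μ + 2)) * (m : ℝ) ^ (-(μ + 1))
        = c0 * (H ^ (-(3 * μ + 2)) * (m : ℝ) ^ (-(μ + 1))) := by ring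
      _ ≤ (H ^ (3 * μ + 2) * (m : ℝ) ^ (μ + 1) * S) * (H ^ (-(3 * μ + 2)) * (m : ℝ) ^ (-(μ + 1))) :=
          mul_le_mul_of_nonneg_right (hc0c1.trans h6) (by positivity)
      _ = (H ^ (-(3 * μ + 2)) * H ^ (3 * μ + 2)) * ((m : ℝ) ^ (-(μ + 1)) * (m : ℝ) ^ (μ + 1)) * S := by
          ring
      _ = S := by rw [e1, e2]; ring

/-- the shape of the bound for two machines -/
theorem shape_two (κ K : ℝ) (hκ : 1 < 2 * κ) (hκ0 : 0 < κ) (hK : 0 ≤ K) : ∃ C : ℝ, 0 ≤ C ∧ ∀ x y H : ℝ, 1 ≤ H →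
    (∀ (q q' : ℕ) (p p' : ℤ), 1 ≤ q → 1 ≤ q' → ∀ S : ℝ, |x - (p : ℝ) / q| ≤ S →
      |y - (p' : ℝ) / q'| ≤ S →
      Real.exp (-(K * (1 + Real.log H))) * ((q : ℝ) * q') ^ (-κ) ≤ S) → ∀ b c : ℕ, 2 ≤ b → 2 ≤ c →
    ∀ (Q Q' : Type) [Fintype Q] [Fintype Q'] (δ : Q → ℤ → Q)
    (g : Q → ℤ) (q₀ : Q) (δ' : Q' → ℤ → Q') (g' : Q' → ℤ) (q₀' : Q') (N N' : ℕ), 1 ≤ N → 1 ≤ N' →
    (Real.log (min (N * Real.log b) (N' * Real.log c)) -
      Real.log (Fintype.card Q * Real.log b + Fintype.card Q' * Real.log c + Real.log H)) /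
      Real.log (2 * κ) - C ≤
      (err δ g (dg b x) q₀ 0 N : ℝ) + err δ' g' (dg c y) q₀' 0 N' := by
  have hl2 : 0 < Real.log 2 := Real.log_pos one_lt_two
  have hl4 : 0 < Real.log (2 * κ) := Real.log_pos hκ
  refine ⟨1 + |Real.log ((κ + 2) / (2 * κ - 1)) / Real.log (2 * κ)| +
    Real.log (1 + (K / Real.log 2 + K)) / Real.log (2 * κ), ?_, ?_⟩
  · have h1 : 0 ≤ Real.log (1 + (K / Real.log 2 + K)) := Real.log_nonneg (by
      have : 0 ≤ K / Real.log 2 := by positivity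
      linarith)
    positivity
  intro x y H hH hJ b c hb hc Q Q' _ _ δ g q₀ δ' g' q₀' N N' hN hN'
  have hlH : 0 ≤ Real.log H := Real.log_nonneg hH
  have hlb := log_base_pos hb
  have hlc := log_base_pos hc
  have hN1 : (1 : ℝ) ≤ N := by exact_mod_cast hN
  have hN1' : (1 : ℝ) ≤ N' := by exact_mod_cast hN'
  have ht : 0 < min (N * Real.log b) (N' * Real.log c) := lt_min (by positivity) (by positivity)
  have h1 := main_two (κ := κ) hκ (D := K * (1 + Real.log H)) (by positivity) hJ hb hc δ g q₀ δ' g'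
    q₀' N N' ht (min_le_left _ _) (min_le_right _ _)
  have : Nonempty Q := ⟨q₀⟩
  have hS : (1 : ℝ) ≤ Fintype.card Q := by exact_mod_cast Fintype.card_pos (α := Q)
  have hS' : (0 : ℝ) ≤ Fintype.card Q' := Nat.cast_nonneg _
  set Z : ℝ := Fintype.card Q * Real.log b + Fintype.card Q' * Real.log c with hZ
  have hlb2 : Real.log 2 ≤ Real.log b := Real.log_le_log (by norm_num) (by exact_mod_cast hb)
  have hZ2 : Real.log 2 ≤ Z := by
    rw [hZ]
    nlinarith [mul_nonneg hS' hlc.le]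
  have hZH : 0 < Z + Real.log H := by linarith
  have h2 : Real.log (K * (1 + Real.log H) + Z) ≤ Real.log (Z + Real.log H) +
      Real.log (1 + (K / Real.log 2 + K)) := by
    have e1 : K * (1 + Real.log H) + Z ≤ K * (1 + Real.log H) + (Z + Real.log H) := by linarith
    refine (Real.log_le_log (by positivity) e1).trans (log_shape hZH (by positivity) ?_ (by positivity))
    have e2 : K = K / Real.log 2 * Real.log 2 := by field_simp
    have e3 : K ≤ K / Real.log 2 * (Z + Real.log H) := by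
      calc K = K / Real.log 2 * Real.log 2 := e2
        _ ≤ _ := mul_le_mul_of_nonneg_left (by linarith) (by positivity)
    nlinarith
  have h3 : (Real.log (min (N * Real.log b) (N' * Real.log c)) - (Real.log (Z + Real.log H) +
      Real.log (1 + (K / Real.log 2 + K)))) / Real.log (2 * κ) ≤
      (Real.log (min (N * Real.log b) (N' * Real.log c)) - Real.log (K * (1 + Real.log H) + Z)) /
        Real.log (2 * κ) := div_le_div_of_nonneg_right (by linarith) hl4.le
  have e4 : (Real.log (min (N * Real.log b) (N' * Real.log c)) - (Real.log (Z + Real.log H) +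
      Real.log (1 + (K / Real.log 2 + K)))) / Real.log (2 * κ) =
      (Real.log (min (N * Real.log b) (N' * Real.log c)) - Real.log (Z + Real.log H)) / Real.log (2 * κ) -
      Real.log (1 + (K / Real.log 2 + K)) / Real.log (2 * κ) := by ring
  have h5 := le_abs_self (Real.log ((κ + 2) / (2 * κ - 1)) / Real.log (2 * κ))
  linarith

/-- the shape of the bound for one machine that reads both numbers -/
theorem shape_joint (κ K : ℝ) (hκ : 1 < κ) (hK : 0 ≤ K) : ∃ C : ℝ, ∀ x y H : ℝ, 1 ≤ H →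
    (∀ (q : ℕ) (p p' : ℤ), 1 ≤ q → ∀ S : ℝ, |x - (p : ℝ) / q| ≤ S → |y - (p' : ℝ) / q| ≤ S →
      Real.exp (-(K * (1 + Real.log H))) * (q : ℝ) ^ (-κ) ≤ S) → ∀ b : ℕ, 2 ≤ b →
    ∀ (Q : Type) [Fintype Q] (δ : Q → ℤ → Q) (g : Q → ℤ) (q₀ : Q) (n : ℕ), 1 ≤ n →
    (Real.log n - Real.log (Fintype.card Q + Real.log H)) / Real.log κ - C ≤
      (err δ g (pr b x y) q₀ 0 n : ℝ) := by
  have hl2 : 0 < Real.log 2 := Real.log_pos one_lt_two
  have hl : 0 < Real.log κ := Real.log_pos hκ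
  refine ⟨1 + Real.log (2 * κ / (κ - 1)) / Real.log κ +
    Real.log (1 + (1 + K / Real.log 2)) / Real.log κ, ?_⟩
  intro x y H hH hJ b hb Q _ δ g q₀ n hn
  have hlH : 0 ≤ Real.log H := Real.log_nonneg hH
  have hlb := log_base_pos hb
  have h1 := main_joint hb x y κ (K * (1 + Real.log H)) hκ (by positivity) hJ δ g q₀ n hn
  have : Nonempty Q := ⟨q₀⟩
  have hS : (1 : ℝ) ≤ Fintype.card Q := by exact_mod_cast Fintype.card_pos (α := Q)
  have hlb2 : Real.log 2 ≤ Real.log b := Real.log_le_log (by norm_num) (by exact_mod_cast hb)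
  have hA : 0 < (Fintype.card Q : ℝ) + Real.log H := by linarith
  have h2 : Real.log (Fintype.card Q + (1 + K * (1 + Real.log H) / Real.log b)) ≤
      Real.log (Fintype.card Q + Real.log H) + Real.log (1 + (1 + K / Real.log 2)) := by
    have e1 : (Fintype.card Q : ℝ) + (1 + K * (1 + Real.log H) / Real.log b) ≤
        (1 + K * (1 + Real.log H) / Real.log 2) + (Fintype.card Q + Real.log H) := by
      have e3 : K * (1 + Real.log H) / Real.log b ≤ K * (1 + Real.log H) / Real.log 2 :=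
        div_le_div_of_nonneg_left (by positivity) hl2 hlb2
      linarith
    refine (Real.log_le_log (by positivity) e1).trans (log_shape hA (by positivity) ?_ (by positivity))
    have e2 : K * (1 + Real.log H) / Real.log 2 = K / Real.log 2 * (1 + Real.log H) := by ring
    rw [e2]
    have e3 : K / Real.log 2 * (1 + Real.log H) ≤ K / Real.log 2 * (Fintype.card Q + Real.log H) :=
      mul_le_mul_of_nonneg_left (by linarith) (by positivity)
    linarith
  have h3 : (Real.log n - (Real.log (Fintype.card Q + Real.log H) +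
      Real.log (1 + (1 + K / Real.log 2)))) / Real.log κ ≤
      (Real.log n - Real.log (Fintype.card Q + (1 + K * (1 + Real.log H) / Real.log b))) /
        Real.log κ := div_le_div_of_nonneg_right (by linarith) hl.le
  have e4 : (Real.log n - (Real.log (Fintype.card Q + Real.log H) +
      Real.log (1 + (1 + K / Real.log 2)))) / Real.log κ =
      (Real.log n - Real.log (Fintype.card Q + Real.log H)) / Real.log κ -
      Real.log (1 + (1 + K / Real.log 2)) / Real.log κ := by ring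
  linarith

end Pool.Agent.V11015.FS
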