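import Pool.Agent.V11015.FS.Several

/-! One machine which reads the digits of two numbers in a common base. -/

set_option autoImplicit false

namespace Pool.Agent.V11015.FS

open Finset Pool.Agent.V60.FSP

/-- the growth between errors, for an arbitrary sequence -/
theorem growth_seq {Q : Type} [Fintype Q] (δ : Q → ℤ → Q) (g : Q → ℤ) (s : ℕ → ℤ) (q₀ : Q) (ρ K α : ℝ)
    (hρ : 1 < ρ) (hα : α * (ρ - 1) = ρ * (Fintype.card Q + 1) + K)
    (hseg : ∀ u v : ℕ, u ≤ v → (∀ i, u ≤ i → i < v → g (st δ s q₀ 0 i) = s (0 + i + 1)) →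
      (v : ℝ) ≤ ρ * (u + Fintype.card Q) + K) (n : ℕ) :
    (n : ℝ) + α ≤ ρ ^ (err δ g s q₀ 0 n + 1) * α := by
  have key : ∀ n : ℕ, ∃ u ≤ n, (∀ i, u ≤ i → i < n → g (st δ s q₀ 0 i) = s (0 + i + 1)) ∧
      (u : ℝ) + α ≤ ρ ^ (err δ g s q₀ 0 n) * α + (if u = 0 then 0 else 1) := by
    intro n
    induction n with
    | zero =>
      refine ⟨0, le_rfl, fun i _ h => absurd h (Nat.not_lt_zero _), ?_⟩
      rw [err_zero]
      simp
    | succ n ih =>
      obtain ⟨u, hu, h1, h2⟩ := ih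
      by_cases h : g (st δ s q₀ 0 n) ≠ s (0 + n + 1)
      · refine ⟨n + 1, le_rfl, fun i hi hi' => by omega, ?_⟩
        rw [err_succ, if_pos h, if_neg (Nat.succ_ne_zero n), pow_succ]
        have h3 := hseg u n hu h1
        push_cast
        have h4 : (if u = 0 then (0 : ℝ) else 1) ≤ 1 := by split_ifs <;> norm_num
        nlinarith
      · have h' : g (st δ s q₀ 0 n) = s (0 + n + 1) := by
          by_contra hne
          exact h hne
        refine ⟨u, by omega, fun i hi hi' => ?_, ?_⟩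
        · rcases Nat.lt_succ_iff_lt_or_eq.1 hi' with h3 | h3
          · exact h1 i hi h3
          · rw [h3]; exact h'
        · rw [err_succ, if_neg h, Nat.add_zero]
          exact h2
  obtain ⟨u, hu, h1, h2⟩ := key n
  have h3 := hseg u n hu h1
  have h4 : (if u = 0 then (0 : ℝ) else 1) ≤ 1 := by split_ifs <;> norm_num
  rw [pow_succ]
  nlinarith

theorem main_seq {Q : Type} [Fintype Q] (δ : Q → ℤ → Q) (g : Q → ℤ) (s : ℕ → ℤ) (q₀ : Q) (ρ K : ℝ)
    (hρ : 1 < ρ) (hK : 0 ≤ K)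
    (hseg : ∀ u v : ℕ, u ≤ v → (∀ i, u ≤ i → i < v → g (st δ s q₀ 0 i) = s (0 + i + 1)) →
      (v : ℝ) ≤ ρ * (u + Fintype.card Q) + K) (n : ℕ) (hn : 0 < n) :
    (Real.log n - Real.log (Fintype.card Q + K)) / Real.log ρ -
      (1 + Real.log (2 * ρ / (ρ - 1)) / Real.log ρ) ≤ err δ g s q₀ 0 n := by
  have : Nonempty Q := ⟨q₀⟩
  have hS : (1 : ℝ) ≤ Fintype.card Q := by exact_mod_cast Fintype.card_pos (α := Q)
  have hρ0 : 0 < ρ - 1 := by linarith
  have hlρ : 0 < Real.log ρ := Real.log_pos hρ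
  have hn0 : (0 : ℝ) < n := by exact_mod_cast hn
  set α : ℝ := (ρ * (Fintype.card Q + 1) + K) / (ρ - 1) with hα
  have hα1 : α * (ρ - 1) = ρ * (Fintype.card Q + 1) + K := by
    rw [hα]
    field_simp
  have h1 := growth_seq δ g s q₀ ρ K α hρ hα1 hseg n
  have hα0 : 0 < α := by rw [hα]; positivity
  have h4 : α ≤ 2 * ρ / (ρ - 1) * (Fintype.card Q + K) := by
    rw [hα, div_mul_eq_mul_div]
    apply div_le_div_of_nonneg_right _ hρ0.le
    nlinarith
  have hρpos : 0 < ρ := by linarith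
  have h5 : (n : ℝ) ≤ ρ ^ (err δ g s q₀ 0 n + 1) * (2 * ρ / (ρ - 1) * (Fintype.card Q + K)) := by
    have h6 := mul_le_mul_of_nonneg_left h4 (show 0 ≤ ρ ^ (err δ g s q₀ 0 n + 1) by positivity)
    linarith
  have h6 := Real.log_le_log hn0 h5
  have hSK : (0 : ℝ) < Fintype.card Q + K := by linarith
  rw [Real.log_mul (by positivity) (by positivity), Real.log_mul (by positivity) hSK.ne',
    Real.log_pow] at h6
  push_cast at h6
  have h7 : (Real.log n - Real.log (Fintype.card Q + K) - Real.log (2 * ρ / (ρ - 1))) / Real.log ρ ≤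
      (err δ g s q₀ 0 n : ℝ) + 1 := (div_le_iff₀ hlρ).2 (by linarith)
  rw [sub_div] at h7
  linarith

/-- two digits as one symbol -/
noncomputable def pr (b : ℕ) (x y : ℝ) (i : ℕ) : ℤ := dg b x i + b * dg b y i

theorem dg_bounds {b : ℕ} (hb : 2 ≤ b) (x : ℝ) (i : ℕ) : 0 ≤ dg b x i ∧ dg b x i < b := by
  unfold dg
  exact ⟨Int.emod_nonneg _ (by omega), Int.emod_lt_of_pos _ (by omega)⟩

theorem pr_mod {b : ℕ} (hb : 2 ≤ b) (x y : ℝ) (i : ℕ) : pr b x y i % (b : ℤ) = dg b x i := by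
  unfold pr
  rw [Int.add_mul_emod_self_left]
  exact Int.emod_eq_of_lt (dg_bounds hb x i).1 (dg_bounds hb x i).2

theorem pr_div {b : ℕ} (hb : 2 ≤ b) (x y : ℝ) (i : ℕ) : pr b x y i / (b : ℤ) = dg b y i := by
  unfold pr
  rw [Int.add_mul_ediv_left _ _ (by omega : (b : ℤ) ≠ 0),
    Int.ediv_eq_zero_of_lt (dg_bounds hb x i).1 (dg_bounds hb x i).2, zero_add]

/-- a correct joint prediction during a long time gives simultaneous approximations -/
theorem common {b : ℕ} (hb : 2 ≤ b) (x y : ℝ) {Q : Type} [Fintype Q] (δ : Q → ℤ → Q) (g : Q → ℤ)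
    (q₀ : Q) (u v : ℕ) (huv : u + Fintype.card Q ≤ v)
    (h : ∀ i, u ≤ i → i < v → g (st δ (pr b x y) q₀ 0 i) = pr b x y (0 + i + 1)) :
    ∃ (q : ℕ) (p p' : ℤ), 1 ≤ q ∧ (q : ℝ) ≤ (b : ℝ) ^ (u + Fintype.card Q) ∧
      |x - (p : ℝ) / q| ≤ 2 * ((b : ℝ) ^ v)⁻¹ ∧ |y - (p' : ℝ) / q| ≤ 2 * ((b : ℝ) ^ v)⁻¹ := by
  obtain ⟨i, j, hi, hij, hj, hrep⟩ := repetition δ g (pr b x y) q₀ 0 u v huv h
  rw [Nat.zero_add, Nat.zero_add] at hrep
  obtain ⟨h1, h2⟩ := pow_sub_bounds hb hij hj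
  refine ⟨_, _, _, h1, h2, rat_rep hb x hij (hj.trans huv) (fun t ht => ?_),
    rat_rep hb y hij (hj.trans huv) (fun t ht => ?_)⟩
  · rw [← pr_mod hb x y, ← pr_mod hb x y, hrep t ht]
  · rw [← pr_div hb x y, ← pr_div hb x y, hrep t ht]

/-- errors of one machine which reads and predicts the digits of two numbers -/
theorem main_joint {b : ℕ} (hb : 2 ≤ b) (x y κ D : ℝ) (hκ : 1 < κ) (hD : 0 ≤ D)
    (hJ : ∀ (q : ℕ) (p p' : ℤ), 1 ≤ q → ∀ S : ℝ, |x - (p : ℝ) / q| ≤ S → |y - (p' : ℝ) / q| ≤ S →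
      Real.exp (-D) * (q : ℝ) ^ (-κ) ≤ S)
    {Q : Type} [Fintype Q] (δ : Q → ℤ → Q) (g : Q → ℤ) (q₀ : Q) (n : ℕ) (hn : 0 < n) :
    (Real.log n - Real.log (Fintype.card Q + (1 + D / Real.log b))) / Real.log κ -
      (1 + Real.log (2 * κ / (κ - 1)) / Real.log κ) ≤ err δ g (pr b x y) q₀ 0 n := by
  have hlb := log_base_pos hb
  refine main_seq δ g (pr b x y) q₀ κ (1 + D / Real.log b) hκ (by positivity) (fun u v huv h => ?_) n hn
  have hS : (0 : ℝ) ≤ Fintype.card Q := Nat.cast_nonneg _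
  have hu : (0 : ℝ) ≤ u := Nat.cast_nonneg _
  have hDb : 0 ≤ D / Real.log b := by positivity
  by_cases hc : u + Fintype.card Q ≤ v
  · obtain ⟨q, p, p', hq, hqb, h1, h2⟩ := common hb x y δ g q₀ u v hc h
    have h3 := hJ q p p' hq _ h1 h2
    have hq0 : (0 : ℝ) < q := by exact_mod_cast hq
    have hb0 : (0 : ℝ) < b := by exact_mod_cast (show 0 < b by omega)
    have h4 := Real.log_le_log (by positivity) h3
    rw [Real.log_mul (Real.exp_pos _).ne' (Real.rpow_pos_of_pos hq0 _).ne', Real.log_exp,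
      Real.log_rpow hq0, Real.log_mul two_ne_zero (by positivity), Real.log_inv, Real.log_pow] at h4
    have h5 := Real.log_le_log hq0 hqb
    rw [Real.log_pow] at h5
    push_cast at h5
    have h7 : Real.log 2 ≤ Real.log b := Real.log_le_log (by norm_num) (by exact_mod_cast hb)
    have h8 : (v : ℝ) * Real.log b ≤ (κ * (u + Fintype.card Q) + (1 + D / Real.log b)) * Real.log b := by
      have e1 : D / Real.log b * Real.log b = D := by field_simp
      have h9 := mul_le_mul_of_nonneg_left h5 (show 0 ≤ κ by linarith)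
      nlinarith
    exact le_of_mul_le_mul_right h8 hlb
  · push Not at hc
    have h1 : (v : ℝ) ≤ u + Fintype.card Q := by exact_mod_cast hc.le
    nlinarith

end Pool.Agent.V11015.FS
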